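import Mathlib

set_option autoImplicit false

namespace Pool.Agent.Lib.MP_fced27_nt

/-- No carry out of the lowest `i` digits when `u` and `w` are added in base `q`. -/
def NC (q i u w : ℕ) : Prop := u % q ^ i + w % q ^ i < q ^ i

theorem nc_add_pow {q i T u w u' w' : ℕ} (hi : i ≤ T) (h : NC q i u w) :
    NC q i (u + q ^ T * u') (w + q ^ T * w') := by
  obtain ⟨r, rfl⟩ := Nat.exists_eq_add_of_le hi
  unfold NC at *
  rw [pow_add, mul_assoc, mul_assoc, Nat.add_mul_mod_self_left, Nat.add_mul_mod_self_left]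
  exact h

theorem nc_high {q i T u w : ℕ} (h : NC q T u w) (h' : NC q i (u / q ^ T) (w / q ^ T)) :
    NC q (T + i) u w := by
  unfold NC at *
  rw [pow_add, Nat.mod_mul, Nat.mod_mul]
  have : q ^ T * (u / q ^ T % q ^ i + w / q ^ T % q ^ i + 1) ≤ q ^ T * q ^ i :=
    Nat.mul_le_mul_left _ h'
  nlinarith

theorem nc_of_lt {q i u w : ℕ} (h : u + w < q ^ i) : NC q i u w :=
  lt_of_le_of_lt (add_le_add (Nat.mod_le _ _) (Nat.mod_le _ _)) h

/-- gluing: no carry on `[j, T]` and none in the quotients -/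
theorem nc_glue {q j T u w : ℕ} (hj : j ≤ T) (h : ∀ i, j ≤ i → i ≤ T → NC q i u w)
    (h' : ∀ i, NC q i (u / q ^ T) (w / q ^ T)) : ∀ i, j ≤ i → NC q i u w := by
  intro i hi
  rcases le_total i T with h1 | h1
  · exact h i hi h1
  · obtain ⟨r, rfl⟩ := Nat.exists_eq_add_of_le h1
    exact nc_high (h T hj le_rfl) (h' r)

theorem nc_of_mod {M u w x : ℕ} (hx : 0 < x) (hd : M ∣ u + w + x)
    (hlt : u % M + w % M + x < 2 * M) : u % M + w % M < M := by
  have h1 : M ∣ u % M + w % M + x := by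
    have e : u + w + x = u % M + w % M + x + M * (u / M + w / M) := by
      have := Nat.mod_add_div u M
      have := Nat.mod_add_div w M
      rw [mul_add]; omega
    rw [e] at hd
    exact (Nat.dvd_add_left (Dvd.intro _ rfl)).1 hd
  obtain ⟨k, hk⟩ := h1
  have : k < 2 := by
    by_contra hc
    have : M * 2 ≤ M * k := Nat.mul_le_mul_left _ (by omega)
    omega
  interval_cases k <;> omega

theorem nc_full {q T u w : ℕ} (hq : 1 < q) (h : u + w + 1 = q ^ T) : ∀ i, NC q i u w := by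
  intro i
  rcases le_total i T with h1 | h1
  · have hp : 0 < q ^ i := by positivity
    refine nc_of_mod one_pos (h ▸ pow_dvd_pow q h1) ?_
    have := Nat.mod_lt u hp
    have := Nat.mod_lt w hp
    omega
  · have := Nat.pow_le_pow_right hq.le h1
    exact nc_of_lt (by omega)

/-- Kummer: no carry from position `j` on means at most `j - 1` carries, also after a shift. -/
theorem not_dvd_choose {q j s u w : ℕ} (hq : q.Prime) (hj : 0 < j)
    (h : ∀ i, j ≤ i → NC q i u w) : ¬ q ^ j ∣ (q ^ s * u + q ^ s * w).choose (q ^ s * u) := by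
  intro hd
  have hpos : (q ^ s * u + q ^ s * w).choose (q ^ s * u) ≠ 0 :=
    (Nat.choose_pos (Nat.le_add_right _ _)).ne'
  have h1 := (hq.pow_dvd_iff_le_factorization hpos).1 hd
  rw [add_comm, Nat.factorization_choose' hq (Nat.lt_succ_self _)] at h1
  have h2 : ∀ B : ℕ, ((Finset.Ico 1 B).filter
      (fun i => q ^ i ≤ q ^ s * u % q ^ i + q ^ s * w % q ^ i)) ⊆ Finset.Ico (s + 1) (s + j) := by
    intro B i hi
    have hi' := (Finset.mem_filter.1 hi).2
    rw [Finset.mem_Ico]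
    have hp : 0 < q ^ i := pow_pos hq.pos _
    by_cases c1 : i ≤ s
    · exfalso
      rw [Nat.mod_eq_zero_of_dvd (Dvd.dvd.mul_right (pow_dvd_pow q c1) u),
        Nat.mod_eq_zero_of_dvd (Dvd.dvd.mul_right (pow_dvd_pow q c1) w)] at hi'
      omega
    · refine ⟨by omega, ?_⟩
      by_contra c2
      obtain ⟨r, rfl⟩ := Nat.exists_eq_add_of_le (show s ≤ i by omega)
      have h3 := h r (by omega)
      unfold NC at h3
      rw [pow_add, Nat.mul_mod_mul_left, Nat.mul_mod_mul_left, ← mul_add] at hi'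
      have := Nat.le_of_mul_le_mul_left hi' (pow_pos hq.pos s)
      omega
  have h3 := Finset.card_le_card (h2 (Nat.log q (q ^ s * w + q ^ s * u)).succ)
  rw [Nat.card_Ico] at h3
  omega

theorem exists_period {q m : ℕ} (hq : 1 < q) (hm : 0 < m) (h : Nat.Coprime q m) (N : ℕ) :
    ∃ T k, 0 < T ∧ 0 < k ∧ N < q ^ T ∧ q ^ T = 1 + m * k := by
  have h0 : 0 < m.totient := Nat.totient_pos.2 hm
  have h1 : q ^ (m.totient * (N + 1)) ≡ 1 [MOD m] := by
    rw [pow_mul]
    simpa using (Nat.ModEq.pow_totient h).pow (N + 1)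
  have h2 : m.totient * (N + 1) < q ^ (m.totient * (N + 1)) := Nat.lt_pow_self hq
  have h3 : N + 1 ≤ m.totient * (N + 1) := Nat.le_mul_of_pos_left _ h0
  obtain ⟨k, hk⟩ := (Nat.modEq_iff_dvd' (by omega)).1 h1.symm
  refine ⟨m.totient * (N + 1), k, by omega, ?_, by omega, by omega⟩
  rcases Nat.eq_zero_or_pos k with rfl | h4
  · omega
  · exact h4

/-- one more block of digits `q - 1` on top -/
theorem pump {q j L T B C n t : ℕ} (hq : 1 < q) (ht : (B + C) * t + 1 = q ^ T) (hj : j ≤ L)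
    (hL : B * n + C * n < q ^ L) (h : ∀ i, j ≤ i → NC q i (B * n) (C * n)) :
    ∀ i, j ≤ i → NC q i (B * (n + q ^ L * t)) (C * (n + q ^ L * t)) := by
  have e1 : B * (n + q ^ L * t) = B * n + q ^ L * (B * t) := by ring
  have e2 : C * (n + q ^ L * t) = C * n + q ^ L * (C * t) := by ring
  have hp : 0 < q ^ L := by positivity
  rw [e1, e2]
  refine nc_glue hj (fun i h1 h2 => nc_add_pow h2 (h i h1)) ?_
  rw [Nat.add_mul_div_left _ _ hp, Nat.add_mul_div_left _ _ hp,
    Nat.div_eq_of_lt (by omega), Nat.div_eq_of_lt (by omega), zero_add, zero_add]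
  exact nc_full hq (by rw [← ht]; ring)

theorem many {q j B C n₀ : ℕ} (hq : q.Prime) (ha : ¬ q ∣ B + C)
    (h : ∀ i, j ≤ i → NC q i (B * n₀) (C * n₀)) :
    ∃ K, 2 ≤ K ∧ ∀ m, ∃ F : Finset ℕ, F.card = 2 ^ m ∧ ∀ n ∈ F, n < K ^ (m + 1) ∧
      n ≡ n₀ [MOD q ^ j] ∧ ∀ i, j ≤ i → NC q i (B * n) (C * n) := by
  have h1 := hq.one_lt
  have hBC : 0 < B + C := Nat.pos_of_ne_zero (fun h0 => ha (h0 ▸ dvd_zero q))
  obtain ⟨T, t, hT, ht, -, e⟩ := exists_period h1 hBC ((Nat.Prime.coprime_iff_not_dvd hq).2 ha) 0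
  obtain ⟨L, hjL, hL⟩ : ∃ L, j ≤ L ∧ B * n₀ + C * n₀ < q ^ L :=
    ⟨j + (B * n₀ + C * n₀), by omega,
      lt_of_le_of_lt (Nat.le_add_left _ _) (Nat.lt_pow_self h1)⟩
  have key : ∀ m, ∃ F : Finset ℕ, F.card = 2 ^ m ∧ ∀ n ∈ F,
      B * n + C * n < q ^ (L + m * T) ∧
      n ≡ n₀ [MOD q ^ j] ∧ ∀ i, j ≤ i → NC q i (B * n) (C * n) := by
    intro m
    induction m with
    | zero =>
      refine ⟨{n₀}, by simp, fun n hn => ?_⟩
      rw [Finset.mem_singleton.1 hn]
      exact ⟨by simpa using hL, Nat.ModEq.refl _, h⟩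
    | succ m ih =>
      obtain ⟨F, hc, hF⟩ := ih
      have hp : 0 < q ^ (L + m * T) := by positivity
      have e3 : q ^ (L + (m + 1) * T) = q ^ (L + m * T) * (1 + (B + C) * t) := by
        rw [← e, ← pow_add]; congr 1; ring
      refine ⟨F ∪ F.image (fun n => n + q ^ (L + m * T) * t), ?_, ?_⟩
      · rw [Finset.card_union_of_disjoint, Finset.card_image_of_injective _
          (add_left_injective _), hc]
        · ring
        · rw [Finset.disjoint_left]
          intro n hn hn'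
          obtain ⟨n', -, rfl⟩ := Finset.mem_image.1 hn'
          have a1 := (hF _ hn).1
          have a2 : q ^ (L + m * T) ≤ q ^ (L + m * T) * t := Nat.le_mul_of_pos_right _ ht
          have a3 : n' + q ^ (L + m * T) * t ≤ (B + C) * (n' + q ^ (L + m * T) * t) :=
            Nat.le_mul_of_pos_left _ hBC
          rw [add_mul] at a3
          omega
      · intro n hn
        rcases Finset.mem_union.1 hn with hn | hn
        · refine ⟨lt_of_lt_of_le (hF n hn).1 ?_, (hF n hn).2⟩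
          exact Nat.pow_le_pow_right h1.le (by nlinarith)
        · obtain ⟨n', hn', rfl⟩ := Finset.mem_image.1 hn
          obtain ⟨a1, a2, a3⟩ := hF n' hn'
          refine ⟨?_, ?_, pump (T := T) h1 (by omega) (by omega) a1 a3⟩
          · rw [e3]; nlinarith
          · refine Nat.ModEq.trans ?_ a2
            have : q ^ j ∣ q ^ (L + m * T) * t :=
              Dvd.dvd.mul_right (pow_dvd_pow q (by omega)) t
            simpa using (Nat.ModEq.refl n').add ((Nat.modEq_zero_iff_dvd).2 this)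
  refine ⟨q ^ (L + T), ?_, fun m => ?_⟩
  · exact le_trans h1 (Nat.le_self_pow (by omega) q)
  · obtain ⟨F, hc, hF⟩ := key m
    refine ⟨F, hc, fun n hn => ⟨?_, (hF n hn).2⟩⟩
    have a1 := (hF n hn).1
    have a2 : q ^ (L + m * T) ≤ (q ^ (L + T)) ^ (m + 1) := by
      rw [← pow_mul]; exact Nat.pow_le_pow_right h1.le (by nlinarith)
    have a3 : n ≤ (B + C) * n := Nat.le_mul_of_pos_left _ hBC
    rw [add_mul] at a3
    omega

theorem power_count {p : ℕ → Prop} {K : ℕ} (hK : 2 ≤ K)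
    (h : ∀ m, ∃ F : Finset ℕ, F.card = 2 ^ m ∧ ∀ n ∈ F, n < K ^ (m + 1) ∧ p n) :
    ∃ δ : ℝ, 0 < δ ∧ ∃ X₀ : ℕ, ∀ X : ℕ, X₀ ≤ X →
      (X : ℝ) ^ δ ≤ ({n : ℕ | n ≤ X ∧ p n}.ncard : ℝ) := by
  have hK' : (1 : ℝ) < K := by exact_mod_cast hK
  have hl : 0 < Real.log K := Real.log_pos hK'
  have hl2 : 0 < Real.log 2 := Real.log_pos (by norm_num)
  refine ⟨Real.log 2 / (3 * Real.log K), by positivity, K ^ 2, fun X hX => ?_⟩
  have hX0 : X ≠ 0 := by
    have : 0 < K ^ 2 := by positivity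
    omega
  have h2 : 2 ≤ Nat.log K X := (Nat.le_log_iff_pow_le (by omega) hX0).2 hX
  obtain ⟨m, hm⟩ : ∃ m, Nat.log K X = m + 1 := ⟨Nat.log K X - 1, by omega⟩
  obtain ⟨F, hc, hF⟩ := h m
  have h3 : K ^ (m + 1) ≤ X := hm ▸ Nat.pow_log_le_self K hX0
  have h4 : X < K ^ (m + 2) := by
    have := Nat.lt_pow_succ_log_self (show 1 < K by omega) X
    rwa [hm] at this
  have h5 : X ≤ K ^ (3 * m) := h4.le.trans (Nat.pow_le_pow_right (by omega) (by omega))
  have h6 : F.card ≤ {n : ℕ | n ≤ X ∧ p n}.ncard := by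
    rw [← Set.ncard_coe_finset]
    refine Set.ncard_le_ncard (fun n hn => ⟨?_, (hF n hn).2⟩) ?_
    · have := (hF n hn).1
      omega
    · exact (Set.finite_Iic X).subset (fun n hn => hn.1)
  have h7 : ((2 : ℝ)) ^ m ≤ ({n : ℕ | n ≤ X ∧ p n}.ncard : ℝ) := by
    rw [hc] at h6; exact_mod_cast h6
  refine le_trans ?_ h7
  have h8 : (X : ℝ) ≤ (K : ℝ) ^ (3 * m) := by exact_mod_cast h5
  refine le_trans (Real.rpow_le_rpow (by positivity) h8 (by positivity)) (le_of_eq ?_)
  rw [← Real.rpow_natCast, ← Real.rpow_mul (by positivity), Real.rpow_def_of_pos (by positivity),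
    ← Real.rpow_natCast, Real.rpow_def_of_pos (by norm_num)]
  congr 1
  push_cast
  field_simp

end Pool.Agent.Lib.MP_fced27_nt
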