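import Pool.Agent.Lib.MP_fced27_nt.SunMul

set_option autoImplicit false

namespace Pool.Agent.Lib.MP_fced27_nt.SunTwo

open Finset

lemma val3 {p c N K N' K' N'' K'' : ℕ} (hp : p.Prime) (hc : c ≠ 0) (h : K ≤ N) (h' : K' ≤ N')
    (h'' : K'' ≤ N'')
    (H : ∀ i, 1 ≤ i → N % p ^ i < K % p ^ i → K' % p ^ i ≤ N' % p ^ i →
      K'' % p ^ i ≤ N'' % p ^ i → p ^ i ∣ c) :
    (N.choose K).factorization p ≤
      c.factorization p + ((N'.choose K').factorization p + (N''.choose K'').factorization p) := by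
  have hb : c < p ^ (N + N' + N'' + c + 1) :=
    lt_of_lt_of_le (by omega) (Nat.lt_pow_self hp.one_lt).le
  rw [val_eq hp h (show N < N + N' + N'' + c + 1 by omega),
    val_eq hp h' (show N' < N + N' + N'' + c + 1 by omega),
    val_eq hp h'' (show N'' < N + N' + N'' + c + 1 by omega),
    Nat.factorization_eq_card_pow_dvd_of_lt hp (by omega) hb]
  refine le_trans (Finset.card_le_card ?_) ((Finset.card_union_le _ _).trans
    (Nat.add_le_add_left (Finset.card_union_le _ _) _))
  intro i hi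
  simp only [mem_filter, mem_union, mem_Ico] at hi ⊢
  by_cases a : N' % p ^ i < K' % p ^ i
  · exact Or.inr (Or.inl ⟨hi.1, a⟩)
  by_cases b : N'' % p ^ i < K'' % p ^ i
  · exact Or.inr (Or.inr ⟨hi.1, b⟩)
  · exact Or.inl ⟨hi.1, H i hi.1.1 hi.2 (by omega) (by omega)⟩

lemma dv_of_val {c k l n : ℕ} (hc : c ≠ 0) (hk : 1 ≤ k) (hl : 1 ≤ l)
    (H : ∀ p, p.Prime → ((k * n).choose n).factorization p ≤ c.factorization p +
      (((l * n).choose (n - 1)).factorization p +
        ((k * l * n).choose (l * n)).factorization p)) : Dv c k l n := by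
  have l1 : n ≤ l * n := Nat.le_mul_of_pos_left n hl
  have l2 : l * n ≤ k * l * n := by rw [mul_assoc]; exact Nat.le_mul_of_pos_left _ hk
  have p1 := (Nat.choose_pos (Nat.le_mul_of_pos_left n hk : n ≤ k * n)).ne'
  have p2 := (Nat.choose_pos (show n - 1 ≤ l * n by omega)).ne'
  have p3 := (Nat.choose_pos l2).ne'
  unfold Dv
  rw [← Nat.factorization_prime_le_iff_dvd p1 (mul_ne_zero hc (mul_ne_zero p2 p3))]
  intro p hp
  rw [Nat.factorization_mul hc (mul_ne_zero p2 p3), Nat.factorization_mul p2 p3]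
  exact H p hp

lemma val_fact {N K : ℕ} (p : ℕ) (h : K ≤ N) :
    (N.choose K).factorization p + K.factorial.factorization p +
      (N - K).factorial.factorization p = N.factorial.factorization p := by
  have p1 := (Nat.choose_pos h).ne'
  rw [← Nat.choose_mul_factorial_mul_factorial h,
    Nat.factorization_mul (mul_ne_zero p1 (Nat.factorial_ne_zero _)) (Nat.factorial_ne_zero _),
    Nat.factorization_mul p1 (Nat.factorial_ne_zero _)]
  rfl

lemma val_shift {p N K : ℕ} (hp : p.Prime) (h : K ≤ N) :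
    ((p * N).choose (p * K)).factorization p = (N.choose K).factorization p := by
  have a := val_fact p h
  have b := val_fact p (Nat.mul_le_mul_left p h)
  rw [← Nat.mul_sub, Nat.factorization_factorial_mul hp, Nat.factorization_factorial_mul hp,
    Nat.factorization_factorial_mul hp] at b
  omega

lemma shift_case {c k p n : ℕ} (hp : p.Prime) (hk : 1 ≤ k) :
    ((k * n).choose n).factorization p ≤ c.factorization p +
      (((p * n).choose (n - 1)).factorization p +
        ((k * p * n).choose (p * n)).factorization p) := by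
  have e : k * p * n = p * (k * n) := by ring
  rw [e, val_shift hp (Nat.le_mul_of_pos_left n hk)]
  omega

lemma two_case {c l n : ℕ} (hl : 2 ≤ l) (hn : 1 ≤ n) :
    ((2 * n).choose n).factorization 2 ≤ c.factorization 2 +
      (((l * n).choose (n - 1)).factorization 2 +
        ((2 * l * n).choose (l * n)).factorization 2) := by
  have l1 : 2 * n ≤ l * n := Nat.mul_le_mul_right n hl
  have e : 2 * l * n = 2 * (l * n) := by ring
  have a := val_fact (N := 2 * n) (K := n) 2 (by omega)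
  have b := val_fact (N := l * n) (K := n - 1) 2 (by omega)
  have d := val_fact (N := 2 * (l * n)) (K := l * n) 2 (by omega)
  rw [Nat.factorization_factorial_mul Nat.prime_two] at a d
  rw [show 2 * n - n = n by omega] at a
  rw [show 2 * (l * n) - l * n = l * n by omega] at d
  have f : (n - 1).factorial.factorization 2 ≤ n.factorial.factorization 2 :=
    (Nat.factorization_le_iff_dvd (Nat.factorial_ne_zero _) (Nat.factorial_ne_zero _)).2
      (Nat.factorial_dvd_factorial (by omega)) 2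
  have g : (l * n - (n - 1)).factorial.factorization 2 < l * n - (n - 1) := by
    have := Nat.emultiplicity_two_factorial_lt (n := l * n - (n - 1)) (by omega)
    rw [emultiplicity_lt_iff_not_dvd,
      Nat.prime_two.pow_dvd_iff_le_factorization (Nat.factorial_ne_zero _)] at this
    omega
  rw [e]
  omega

lemma convK {c l m n : ℕ} (hc : c ≠ 0) (hl : 2 ≤ l) (hm : l + 1 ∣ 2 ^ m * c) (hn : 1 ≤ n) :
    Dv c 2 l n := by
  have l1 : n ≤ l * n := Nat.le_mul_of_pos_left n (by omega)
  have l2 : 2 * l * n = 2 * (l * n) := by ring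
  refine dv_of_val hc (by omega) (by omega) fun p hp => ?_
  by_cases h2 : p = 2
  · subst h2; exact two_case hl hn
  refine val3 hp hc (by omega) (by omega) (by omega) fun s hs a1 a2 a3 => ?_
  have ho : Odd (p ^ s) := (hp.odd_of_ne_two h2).pow
  have hq : 0 < p ^ s := pow_pos hp.pos s
  generalize p ^ s = q at *
  rw [l2] at a3
  have a4 := pred_mod (M := n) hq (by omega)
  have b0 := Nat.mod_lt n hq
  have b9 := Nat.mod_lt (l * n) hq
  have b8 := Nat.mod_lt (2 * (l * n)) hq
  obtain ⟨j, b1, b2⟩ := mod_cases 2 (l * n) (by omega) hq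
  obtain ⟨j', b3, b4⟩ := mod_cases 2 n (by omega) hq
  obtain ⟨i, -, b5⟩ := mod_cases l n (by omega) hq
  obtain ⟨t, ht⟩ := ho
  have c0 : q = 2 * ((l * n) % q) + 1 ∧ n % q = (l * n) % q + 1 := by
    interval_cases j <;> interval_cases j' <;> omega
  generalize (l * n) % q = w at *
  generalize n % q = y at *
  obtain ⟨c1, c2⟩ := c0
  have d : q ∣ l + 1 := by
    have e : (l + 1) + q * l = q * (2 * i + 1) := by
      have : q * l + l = 2 * (l * y) := by rw [c1, c2]; ring
      have : q * (2 * i + 1) = 2 * (q * i) + q := by ring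
      omega
    exact (Nat.dvd_add_left (dvd_mul_right q l)).1 (e ▸ dvd_mul_right _ _)
  have co : Nat.Coprime q (2 ^ m) :=
    Nat.Coprime.pow_right m (Nat.coprime_two_right.2 ⟨t, ht⟩)
  exact co.dvd_of_dvd_mul_left (d.trans hm)

lemma convL {c k n : ℕ} (hc : c ≠ 0) (hk : 2 ≤ k) (hm : 2 * k - 1 ∣ c) : Dv c k 2 n := by
  have l1 : n ≤ k * n := Nat.le_mul_of_pos_left n (by omega)
  have l2 : k * 2 * n = 2 * (k * n) := by ring
  refine dv_of_val hc (by omega) (by omega) fun p hp => ?_
  by_cases h2 : p = 2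
  · subst h2; exact shift_case hp (by omega)
  refine val3 hp hc (by omega) (by omega) (by omega) fun s hs a1 a2 a3 => ?_
  have ho : Odd (p ^ s) := (hp.odd_of_ne_two h2).pow
  have hq : 0 < p ^ s := pow_pos hp.pos s
  generalize p ^ s = q at *
  rw [l2] at a3
  have a4 := pred_mod (M := n) hq (by omega)
  have b0 := Nat.mod_lt n hq
  have b9 := Nat.mod_lt (k * n) hq
  have b8 := Nat.mod_lt (2 * (k * n)) hq
  obtain ⟨j, b1, b2⟩ := mod_cases 2 (k * n) (by omega) hq
  obtain ⟨j', b3, b4⟩ := mod_cases 2 n (by omega) hq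
  obtain ⟨i, -, b5⟩ := mod_cases k n (by omega) hq
  obtain ⟨t, ht⟩ := ho
  have c0 : q = 2 * ((k * n) % q) + 1 ∧ q = n % q + 1 := by
    interval_cases j <;> interval_cases j' <;> omega
  generalize (k * n) % q = z at *
  generalize n % q = w at *
  obtain ⟨c1, c2⟩ := c0
  have e : (2 * k - 1) + q * (2 * i + 1) = q * (2 * k) := by
    have : q * (2 * k) = 2 * (k * w) + 2 * k := by rw [c2]; ring
    have : q * (2 * i + 1) = 2 * (q * i) + q := by ring
    omega
  exact ((Nat.dvd_add_left (dvd_mul_right q _)).1 (e ▸ dvd_mul_right _ _)).trans hm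

lemma convD {c k n : ℕ} (hc : c ≠ 0) (hk : 2 ≤ k)
    (hm : ∀ j, 1 ≤ j → j ≤ k → (k - 1) * j + 1 ∣ c) : Dv c k k n := by
  have l1 : n ≤ k * n := Nat.le_mul_of_pos_left n (by omega)
  have l2 : k * n ≤ k * k * n := by rw [mul_assoc]; exact Nat.le_mul_of_pos_left _ (by omega)
  refine dv_of_val hc (by omega) (by omega) fun p hp => ?_
  refine val3 hp hc l1 (by omega) l2 fun s hs a1 a2 a3 => ?_
  have hq : 0 < p ^ s := pow_pos hp.pos s
  generalize p ^ s = q at *
  rw [mul_assoc] at a3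
  have a4 := pred_mod (M := n) hq (by omega)
  have b9 := Nat.mod_lt (k * n) hq
  have b8 := Nat.mod_lt (k * (k * n)) hq
  obtain ⟨i, -, b5⟩ := mod_cases k n (by omega) hq
  obtain ⟨i', -, b6⟩ := mod_cases k (k * n) (by omega) hq
  have c1 : n % q = (k * n) % q + 1 := by omega
  generalize (k * (k * n)) % q = x at *
  generalize (k * n) % q = z at *
  generalize n % q = w at *
  subst c1
  have c2 : z < k := by
    by_contra hz
    have e1 : (q * i' + (x + k)) % q = (q * i + z) % q := by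
      rw [show q * i' + (x + k) = q * i + z by rw [mul_add] at b5; omega]
    rw [Nat.mul_add_mod, Nat.mul_add_mod, Nat.mod_eq_of_lt b9] at e1
    by_cases hx : x + k < q
    · rw [Nat.mod_eq_of_lt hx] at e1; omega
    · rw [Nat.mod_eq_sub_mod (by omega), Nat.mod_eq_of_lt (by omega)] at e1; omega
  refine Dvd.dvd.trans ⟨i, ?_⟩ (hm (z + 1) (by omega) (by omega))
  obtain ⟨v, rfl⟩ : ∃ v, k = v + 1 := ⟨k - 1, by omega⟩
  rw [add_mul] at b5
  rw [Nat.add_sub_cancel]
  omega

lemma fail35 {n q : ℕ} (hq : 0 < q) (a1 : (3 * n) % q < n % q) (a2 : (n - 1) % q ≤ (5 * n) % q)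
    (a3 : (5 * n) % q ≤ (15 * n) % q) : q = 7 ∨ q = 11 := by
  have a4 := pred_mod (M := n) hq (by omega)
  have hb : q ≤ 11 := by
    obtain ⟨j, b1, b2⟩ := mod_cases 15 n (by omega) hq
    obtain ⟨j', b3, b4⟩ := mod_cases 5 n (by omega) hq
    obtain ⟨j'', b5, b6⟩ := mod_cases 3 n (by omega) hq
    have b0 := Nat.mod_lt n hq
    have b7 := Nat.mod_lt (5 * n) hq
    have b8 := Nat.mod_lt (3 * n) hq
    have b9 := Nat.mod_lt (15 * n) hq
    generalize (n - 1) % q = v at *
    generalize 15 * n % q = x at *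
    generalize 5 * n % q = y at *
    generalize 3 * n % q = z at *
    generalize n % q = w at *
    interval_cases j <;> interval_cases j' <;> interval_cases j'' <;> omega
  have b0 := Nat.mod_lt n hq
  rw [← Nat.mul_mod_mod 3 n, ← Nat.mul_mod_mod 5 n, ← Nat.mul_mod_mod 15 n] at *
  generalize (n - 1) % q = v at *
  generalize n % q = w at *
  interval_cases q <;> interval_cases w <;> omega

lemma fail53 {n q : ℕ} (hq : 0 < q) (a1 : (5 * n) % q < n % q) (a2 : (n - 1) % q ≤ (3 * n) % q)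
    (a3 : (3 * n) % q ≤ (15 * n) % q) : q = 7 ∨ q = 9 ∨ q = 11 ∨ q = 13 := by
  have a4 := pred_mod (M := n) hq (by omega)
  obtain ⟨j, b1, b2⟩ := mod_cases 15 n (by omega) hq
  obtain ⟨j', b3, b4⟩ := mod_cases 5 n (by omega) hq
  obtain ⟨j'', b5, b6⟩ := mod_cases 3 n (by omega) hq
  have b0 := Nat.mod_lt n hq
  have b7 := Nat.mod_lt (5 * n) hq
  have b8 := Nat.mod_lt (3 * n) hq
  have b9 := Nat.mod_lt (15 * n) hq
  generalize (n - 1) % q = v at *
  generalize 15 * n % q = x at *
  generalize 5 * n % q = y at *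
  generalize 3 * n % q = z at *
  generalize n % q = w at *
  interval_cases j <;> interval_cases j' <;> interval_cases j'' <;> omega

lemma conv35 {c n : ℕ} (hc : c ≠ 0) (hm : 77 ∣ c) : Dv c 3 5 n := by
  refine dv_of_val hc (by omega) (by omega) fun p hp => ?_
  refine val3 hp hc (by omega) (by omega) (by omega) fun s hs a1 a2 a3 => ?_
  rcases fail35 (pow_pos hp.pos s) a1 a2 a3 with e | e <;> rw [e] <;> omega

lemma conv53 {c n : ℕ} (hc : c ≠ 0) (hm : 1001 ∣ c) : Dv c 5 3 n := by
  refine dv_of_val hc (by omega) (by omega) fun p hp => ?_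
  by_cases h3 : p = 3
  · subst h3; exact shift_case hp (by omega)
  refine val3 hp hc (by omega) (by omega) (by omega) fun s hs a1 a2 a3 => ?_
  rcases fail53 (pow_pos hp.pos s) a1 a2 a3 with e | e | e | e
  · rw [e]; omega
  · have : p ∣ 3 ^ 2 := by rw [show 3 ^ 2 = 9 by norm_num, ← e]; exact dvd_pow_self p (by omega)
    exact absurd ((Nat.prime_dvd_prime_iff_eq hp Nat.prime_three).1 (hp.dvd_of_dvd_pow this)) h3
  · rw [e]; omega
  · rw [e]; omega

theorem convM {c k l n : ℕ} (hc : c ≠ 0) (hk : 2 ≤ k) (hl : 2 ≤ l) (hn : 1 ≤ n)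
    (H : (k = 2 ∧ ∃ m : ℕ, l + 1 ∣ 2 ^ m * c) ∨ (l = 2 ∧ 2 * k - 1 ∣ c) ∨
      (k = 3 ∧ l = 5 ∧ 77 ∣ c) ∨ (k = 5 ∧ l = 3 ∧ 1001 ∣ c) ∨
      (k = l ∧ ∀ j : ℕ, 1 ≤ j → j ≤ k → (k - 1) * j + 1 ∣ c)) : Dv c k l n := by
  rcases H with ⟨rfl, m, h⟩ | ⟨rfl, h⟩ | ⟨rfl, rfl, h⟩ | ⟨rfl, rfl, h⟩ | ⟨rfl, h⟩
  · exact convK hc hl h hn
  · exact convL hc hk h
  · exact conv35 hc h
  · exact conv53 hc h
  · exact convD hc hk h

end Pool.Agent.Lib.MP_fced27_nt.SunTwo
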