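import Pool.Agent.Lib.MP_fced27_nt.SunTwo

set_option autoImplicit false

namespace Pool.Agent.Lib.MP_fced27_nt.SunTwo

open Finset

/-- The second divisibility with a multiplier `c`, at the argument `n`. -/
def Dv (c k l n : ℕ) : Prop :=
  (k * n).choose n ∣ c * ((l * n).choose (n - 1) * (k * l * n).choose (l * n))

lemma famM {c k u p h n T a : ℕ} (hc : c ≠ 0) (hp : p.Prime) (hk : 1 ≤ k) (hn : 1 ≤ n)
    (hh : h < p) (hh1 : 1 ≤ h) (e : k * (u + 1) * n + h = h * p ^ T) (ha : 1 ≤ a)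
    (d : p ^ a ∣ u * n + 1) (r : ((u + 1) * n) % p + h ≤ p)
    (H : ∀ q, 0 < q → (k * (u + 1) * n) % q + h = q → ((u + 1) * n) % q < n % q →
      (k * n) % q < n % q) (hd : Dv c k (u + 1) n) : p ^ a ∣ c := by
  have l1 : n ≤ (u + 1) * n := Nat.le_mul_of_pos_left n (by omega)
  have l2 : (u + 1) * n ≤ k * (u + 1) * n := by
    rw [mul_assoc]; exact Nat.le_mul_of_pos_left _ hk
  have l3 : n ≤ k * n := Nat.le_mul_of_pos_left n hk
  have dich : ∀ i, 1 ≤ i → (k * (u + 1) * n) % p ^ i + h = p ^ i ∨ k * (u + 1) * n < p ^ i := by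
    intro i hi
    rcases le_or_gt i T with hT | hT
    · left
      obtain ⟨w, hw⟩ : p ^ i ∣ h * p ^ T := (pow_dvd_pow p hT).mul_left h
      have hq : p ≤ p ^ i := Nat.le_self_pow (by omega) p
      obtain ⟨w, rfl⟩ : ∃ w', w = w' + 1 := by
        refine ⟨w - 1, ?_⟩
        rcases Nat.eq_zero_or_pos w with rfl | h0
        · omega
        · omega
      have : k * (u + 1) * n = p ^ i * w + (p ^ i - h) := by
        rw [mul_add] at hw; omega
      rw [this, Nat.mul_add_mod, Nat.mod_eq_of_lt (by omega)]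
      omega
    · right
      have h1 : h * p ^ T < p * p ^ T := Nat.mul_lt_mul_of_pos_right hh (pow_pos hp.pos T)
      have h2 : p ^ (T + 1) ≤ p ^ i := Nat.pow_le_pow_right hp.pos hT
      rw [pow_succ'] at h2
      omega
  have c1 : ¬ p ∣ (k * (u + 1) * n).choose ((u + 1) * n) := by
    apply not_dvd hp l2
    intro i hi
    rcases dich i hi with h1 | h1
    · obtain ⟨j, rfl⟩ : ∃ j, i = j + 1 := ⟨i - 1, by omega⟩
      have h2 : ((u + 1) * n) % p ^ (j + 1) % p = ((u + 1) * n) % p :=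
        Nat.mod_mod_of_dvd _ (dvd_pow_self p (by omega))
      have h3 := Nat.div_add_mod (((u + 1) * n) % p ^ (j + 1)) p
      have h4 : ((u + 1) * n) % p ^ (j + 1) / p < p ^ j := by
        rw [Nat.div_lt_iff_lt_mul hp.pos, ← pow_succ]
        exact Nat.mod_lt _ (pow_pos hp.pos _)
      have h5 : p * (((u + 1) * n) % p ^ (j + 1) / p + 1) ≤ p * p ^ j :=
        Nat.mul_le_mul_left p h4
      rw [← pow_succ', mul_add] at h5
      omega
    · rw [Nat.mod_eq_of_lt h1, Nat.mod_eq_of_lt (by omega)]; exact l2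
  have c2 : (((u + 1) * n).choose n).factorization p ≤ ((k * n).choose n).factorization p := by
    apply val_le hp l1 l3
    intro i hi hlt
    rcases dich i hi with h1 | h1
    · exact H _ (pow_pos hp.pos i) h1 hlt
    · rw [Nat.mod_eq_of_lt (by omega), Nat.mod_eq_of_lt (by omega)] at hlt; omega
  have e1 := Nat.choose_succ_right_eq ((u + 1) * n) (n - 1)
  have e2 : (u + 1) * n - (n - 1) = u * n + 1 := by rw [add_mul]; omega
  rw [Nat.sub_add_cancel hn, e2] at e1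
  have hd2 : (k * n).choose n * (u * n + 1) ∣
      c * (((u + 1) * n).choose n * n * (k * (u + 1) * n).choose ((u + 1) * n)) := by
    rw [e1, mul_right_comm, ← mul_assoc]
    exact Nat.mul_dvd_mul_right hd _
  have p1 := (Nat.choose_pos l1).ne'
  have p2 := (Nat.choose_pos l2).ne'
  have p3 := (Nat.choose_pos l3).ne'
  have p4 : n ≠ 0 := by omega
  have p5 : u * n + 1 ≠ 0 := by omega
  have p6 := mul_ne_zero (mul_ne_zero p1 p4) p2
  have key := (Nat.factorization_le_iff_dvd (mul_ne_zero p3 p5) (mul_ne_zero hc p6)).2 hd2 p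
  rw [Nat.factorization_mul p3 p5, Nat.factorization_mul hc p6,
    Nat.factorization_mul (mul_ne_zero p1 p4) p2, Nat.factorization_mul p1 p4] at key
  simp only [Finsupp.add_apply] at key
  have z1 := Nat.factorization_eq_zero_of_not_dvd c1
  have z2 : n.factorization p = 0 := by
    apply Nat.factorization_eq_zero_of_not_dvd
    intro hpn
    have d1 : p ∣ u * n + 1 := (dvd_pow_self p (by omega)).trans d
    exact hp.one_lt.ne' (Nat.dvd_one.1 ((Nat.dvd_add_right (hpn.mul_left u)).1 d1))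
  have z3 := (hp.pow_dvd_iff_le_factorization p5).1 d
  exact (hp.pow_dvd_iff_le_factorization hc).2 (by omega)

lemma exists_nT {c p h : ℕ} (hp : p.Prime) (hc : 0 < c) (hpc : ¬ p ∣ c) (hh : 1 ≤ h)
    (N a : ℕ) : ∃ n T, N ≤ n ∧ 1 ≤ n ∧ a ≤ T ∧ c * n + h = h * p ^ T := by
  obtain ⟨n, T, h1, h2, -, e⟩ := exists_n hp hc hpc hh (N + h * p ^ a)
  refine ⟨n, T, by omega, h2, ?_, e⟩
  by_contra hlt
  have a1 : p ^ T ≤ p ^ a := Nat.pow_le_pow_right hp.pos (by omega)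
  have a2 : h * p ^ T ≤ h * p ^ a := Nat.mul_le_mul_left h a1
  have a3 : n ≤ c * n := Nat.le_mul_of_pos_left n hc
  omega

lemma mulK {c u p a N : ℕ} (hc : c ≠ 0) (hp : p.Prime) (h2 : p ≠ 2) (ha : 1 ≤ a)
    (hd : p ^ a ∣ u + 2) (H : ∀ n, N ≤ n → Dv c 2 (u + 1) n) : p ^ a ∣ c := by
  have hd1 : p ∣ u + 2 := (dvd_pow_self p (by omega)).trans hd
  have hpc : ¬ p ∣ 2 * (u + 1) := by
    intro h
    rcases (Nat.Prime.dvd_mul hp).1 h with h | h
    · exact h2 ((Nat.prime_dvd_prime_iff_eq hp Nat.prime_two).1 h)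
    · exact hp.one_lt.ne' (Nat.dvd_one.1 ((Nat.dvd_add_right h).1 hd1))
  obtain ⟨n, T, h1, h3, h4, e⟩ := exists_nT hp (by omega) hpc le_rfl N a
  refine famM hc hp (by omega) h3 hp.one_lt le_rfl e ha ?_ ?_ ?_ (H n h1)
  · have a1 : p ^ a ∣ n * (u + 2) + (u * n + 1) := by
      have : n * (u + 2) + (u * n + 1) = 1 * p ^ T := by rw [← e]; ring
      rw [this]; exact (pow_dvd_pow p h4).mul_left 1
    exact (Nat.dvd_add_right (hd.mul_left n)).1 a1
  · have := Nat.mod_lt ((u + 1) * n) hp.pos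
    omega
  · intro q hq a1 a2
    obtain ⟨j, b1, b2⟩ := mod_cases 2 ((u + 1) * n) (by omega) hq
    obtain ⟨j', b3, b4⟩ := mod_cases 2 n (by omega) hq
    have b5 := Nat.mod_lt n hq
    have b6 := Nat.mod_lt (2 * n) hq
    rw [← mul_assoc] at b2
    interval_cases j <;> interval_cases j' <;> omega

lemma odd_half {k p : ℕ} (hk : 2 ≤ k) (hp : p.Prime) (hd : p ∣ 2 * k - 1) :
    ∃ h, p = 2 * h + 1 ∧ 1 ≤ h ∧ ¬ p ∣ k ∧ (2 * (k : ZMod p) = 1) := by
  obtain ⟨w, hw⟩ := hd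
  have h2 : p ≠ 2 := by rintro rfl; omega
  obtain ⟨h, hh⟩ := hp.odd_of_ne_two h2
  have := hp.two_le
  have e : 2 * k = p * w + 1 := by omega
  refine ⟨h, hh, by omega, ?_, ?_⟩
  · intro hd
    have : p ∣ p * w + 1 := e ▸ hd.mul_left 2
    exact hp.one_lt.ne' (Nat.dvd_one.1 ((Nat.dvd_add_right (dvd_mul_right p w)).1 this))
  · have := congrArg (Nat.cast : ℕ → ZMod p) e
    push_cast at this
    rw [this]; simp

lemma mulL {c k p a N : ℕ} (hc : c ≠ 0) (hk : 2 ≤ k) (hp : p.Prime) (ha : 1 ≤ a)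
    (hd : p ^ a ∣ 2 * k - 1) (H : ∀ n, N ≤ n → Dv c k 2 n) : p ^ a ∣ c := by
  obtain ⟨h, hh, hh1, hpk, -⟩ := odd_half hk hp ((dvd_pow_self p (by omega)).trans hd)
  have hpc : ¬ p ∣ k * (1 + 1) := by
    intro h
    rcases (Nat.Prime.dvd_mul hp).1 h with h | h
    · exact hpk h
    · have := Nat.le_of_dvd (by omega) h
      omega
  obtain ⟨n, T, h1, h3, h4, e⟩ := exists_nT hp (by omega) hpc le_rfl N a
  refine famM (u := 1) hc hp (by omega) h3 hp.one_lt le_rfl e ha ?_ ?_ ?_ (H n h1)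
  · have a1 : p ^ a ∣ n * (2 * k - 1) + (1 * n + 1) := by
      obtain ⟨v, rfl⟩ : ∃ v, k = v + 1 := ⟨k - 1, by omega⟩
      have e0 : 2 * (v + 1) - 1 = 2 * v + 1 := by omega
      have : n * (2 * v + 1) + (1 * n + 1) = 1 * p ^ T := by rw [← e]; ring
      rw [e0, this]; exact (pow_dvd_pow p h4).mul_left 1
    exact (Nat.dvd_add_right (hd.mul_left n)).1 a1
  · have := Nat.mod_lt ((1 + 1) * n) hp.pos
    omega
  · intro q hq a1 a2
    obtain ⟨j, b1, b2⟩ := mod_cases 2 (k * n) (by omega) hq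
    obtain ⟨j', b3, b4⟩ := mod_cases 2 n (by omega) hq
    have b5 := Nat.mod_lt n hq
    have b6 := Nat.mod_lt (k * n) hq
    have b7 : k * (1 + 1) * n = 2 * (k * n) := by ring
    rw [b7] at a1
    have b8 : (1 + 1) * n = 2 * n := by ring
    rw [b8] at a2
    interval_cases j <;> interval_cases j' <;> omega

lemma mulD {c u p N : ℕ} (hc : c ≠ 0) (hu : 1 ≤ u) (hp : p.Prime) (hd : p ∣ 2 * (u + 1) - 1)
    (H : ∀ n, N ≤ n → Dv c (u + 1) (u + 1) n) : p ∣ c := by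
  obtain ⟨h, hh, hh1, hpk, hz⟩ := odd_half (by omega) hp hd
  have hpc : ¬ p ∣ (u + 1) * (u + 1) := by
    intro h
    rcases (Nat.Prime.dvd_mul hp).1 h with h | h <;> exact hpk h
  obtain ⟨n, T, h1, h3, h4, e⟩ := exists_n hp (by positivity) hpc hh1 N
  have a1 := cast_dvd (pow_dvd h4 e)
  have a2 := cast_dvd (show p ∣ 2 * h + 1 from hh ▸ dvd_rfl)
  push_cast at a1 a2 hz
  have a3 : ((u : ZMod p) + 1) * n = 1 := by
    linear_combination 2 * a1 - a2 - ((u : ZMod p) + 1) * n * hz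
  rw [← pow_one p]
  refine famM hc hp (by omega) h3 (by omega) hh1 e le_rfl ?_ ?_ ?_ (H n h1)
  · rw [pow_one, ← ZMod.natCast_eq_zero_iff]
    push_cast
    linear_combination (n : ZMod p) * hz - a3
  · have : (u + 1) * n ≡ 1 [MOD p] := by
      rw [← ZMod.natCast_eq_natCast_iff]
      push_cast
      exact a3
    have h5 : ((u + 1) * n) % p = 1 % p := this
    rw [Nat.mod_eq_of_lt hp.one_lt] at h5
    omega
  · intro q _ _ a
    exact a

lemma step35 {n h q : ℕ} (hq : 0 < q) (h0 : h = 1 ∨ h = 2) (a1 : (15 * n) % q + h = q)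
    (a2 : (5 * n) % q < n % q) : (3 * n) % q < n % q := by
  obtain ⟨j, b1, b2⟩ := mod_cases 15 n (by omega) hq
  obtain ⟨j', b3, b4⟩ := mod_cases 5 n (by omega) hq
  obtain ⟨j'', b5, b6⟩ := mod_cases 3 n (by omega) hq
  have b7 := Nat.mod_lt (5 * n) hq
  have b8 := Nat.mod_lt (3 * n) hq
  generalize 15 * n % q = x at *
  generalize 5 * n % q = y at *
  generalize 3 * n % q = z at *
  generalize n % q = w at *
  interval_cases j <;> interval_cases j' <;> interval_cases j'' <;> omega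

lemma step53 {n h q : ℕ} (hq : 0 < q) (h0 : h = 1 ∨ h = 2 ∨ h = 4) (a1 : (15 * n) % q + h = q)
    (a2 : (3 * n) % q < n % q) : (5 * n) % q < n % q := by
  obtain ⟨j, b1, b2⟩ := mod_cases 15 n (by omega) hq
  obtain ⟨j', b3, b4⟩ := mod_cases 5 n (by omega) hq
  obtain ⟨j'', b5, b6⟩ := mod_cases 3 n (by omega) hq
  have b7 := Nat.mod_lt (5 * n) hq
  have b8 := Nat.mod_lt (3 * n) hq
  generalize 15 * n % q = x at *
  generalize 5 * n % q = y at *
  generalize 3 * n % q = z at *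
  generalize n % q = w at *
  interval_cases j <;> interval_cases j' <;> interval_cases j'' <;> omega

lemma mul35 {c p h N : ℕ} (hc : c ≠ 0) (h0 : (p = 7 ∧ h = 2) ∨ (p = 11 ∧ h = 1))
    (H : ∀ n, N ≤ n → Dv c 3 5 n) : p ∣ c := by
  have hp : p.Prime := by rcases h0 with ⟨rfl, -⟩ | ⟨rfl, -⟩ <;> norm_num
  obtain ⟨n, T, h1, h3, h4, e⟩ := exists_n (c := 3 * (4 + 1)) (h := h) hp (by norm_num)
    (by rcases h0 with ⟨rfl, -⟩ | ⟨rfl, -⟩ <;> norm_num) (by omega) N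
  have a := pow_dvd h4 e
  rw [← pow_one p]
  refine famM (u := 4) hc hp (by omega) h3 (by omega) (by omega) e le_rfl ?_ ?_
    (fun q hq a1 a2 => step35 hq (by omega) a1 a2) (H n h1)
  · rw [pow_one]; rcases h0 with ⟨rfl, rfl⟩ | ⟨rfl, rfl⟩ <;> omega
  · rcases h0 with ⟨rfl, rfl⟩ | ⟨rfl, rfl⟩ <;> omega

lemma mul53 {c p h N : ℕ} (hc : c ≠ 0)
    (h0 : (p = 7 ∧ h = 4) ∨ (p = 11 ∧ h = 2) ∨ (p = 13 ∧ h = 1))
    (H : ∀ n, N ≤ n → Dv c 5 3 n) : p ∣ c := by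
  have hp : p.Prime := by rcases h0 with ⟨rfl, -⟩ | ⟨rfl, -⟩ | ⟨rfl, -⟩ <;> norm_num
  obtain ⟨n, T, h1, h3, h4, e⟩ := exists_n (c := 5 * (2 + 1)) (h := h) hp (by norm_num)
    (by rcases h0 with ⟨rfl, -⟩ | ⟨rfl, -⟩ | ⟨rfl, -⟩ <;> norm_num) (by omega) N
  have a := pow_dvd h4 e
  rw [← pow_one p]
  refine famM (u := 2) hc hp (by omega) h3 (by omega) (by omega) e le_rfl ?_ ?_
    (fun q hq a1 a2 => step53 hq (by omega) a1 a2) (H n h1)
  · rw [pow_one]; rcases h0 with ⟨rfl, rfl⟩ | ⟨rfl, rfl⟩ | ⟨rfl, rfl⟩ <;> omega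
  · rcases h0 with ⟨rfl, rfl⟩ | ⟨rfl, rfl⟩ | ⟨rfl, rfl⟩ <;> omega

lemma Bad.notM {c k l N : ℕ} (hc : c ≠ 0) (h : Bad k l (N + c)) :
    ∃ n, N ≤ n ∧ ¬ Dv c k l n := by
  obtain ⟨n, p, h1, h0, h2, hp, h3, h4, h5, h6, h7⟩ := h
  refine ⟨n, by omega, fun hd => ?_⟩
  rcases (Nat.Prime.dvd_mul hp).1 (h3.trans hd) with h | h
  · exact Nat.not_dvd_of_pos_of_lt (by omega) (by omega) h
  rcases (Nat.Prime.dvd_mul hp).1 h with h | h
  · have e := Nat.choose_succ_right_eq (l * n) (n - 1)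
    rw [Nat.sub_add_cancel h2] at e
    have : p ∣ (l * n).choose n * n := e ▸ h.mul_right _
    rcases (Nat.Prime.dvd_mul hp).1 this with h | h
    · exact h4 h
    · exact h7 h
  · exact h5 h

theorem partM {c k l N : ℕ} (hc : c ≠ 0) (hk : 2 ≤ k) (hl : 2 ≤ l)
    (H : ∀ n, N ≤ n → Dv c k l n) :
    (k = 2 ∧ ∃ m : ℕ, l + 1 ∣ 2 ^ m * c) ∨ (l = 2 ∧ 2 * k - 1 ∣ c) ∨
      (k = 3 ∧ l = 5 ∧ 77 ∣ c) ∨ (k = 5 ∧ l = 3 ∧ 1001 ∣ c) ∨
      (k = l ∧ 3 ≤ k ∧ ∀ p : ℕ, p.Prime → p ∣ 2 * k - 1 → p ∣ c) := by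
  obtain ⟨u, rfl⟩ : ∃ u, l = u + 1 := ⟨l - 1, by omega⟩
  by_cases h5 : k = 2
  · subst h5
    refine Or.inl ⟨rfl, u + 2, (Nat.dvd_iff_prime_pow_dvd_dvd _ _).2 fun p a hp hd => ?_⟩
    rcases Nat.eq_zero_or_pos a with rfl | ha
    · simp
    by_cases h2 : p = 2
    · subst h2
      have a1 := Nat.le_of_dvd (by omega) hd
      have a2 : a < 2 ^ a := Nat.lt_pow_self (by omega)
      exact (pow_dvd_pow 2 (by omega)).mul_right c
    · exact (mulK hc hp h2 ha hd H).mul_left _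
  right
  by_cases h2 : u + 1 = 2
  · rw [h2] at H
    refine Or.inl ⟨h2, (Nat.dvd_iff_prime_pow_dvd_dvd _ _).2 fun p a hp hd => ?_⟩
    rcases Nat.eq_zero_or_pos a with rfl | ha
    · simp
    · exact mulL hc hk hp ha hd H
  right
  by_cases h3 : k = 3 ∧ u + 1 = 5
  · rw [h3.1, h3.2] at H
    exact Or.inl ⟨h3.1, h3.2, Nat.Coprime.mul_dvd_of_dvd_of_dvd (by norm_num : Nat.Coprime 7 11)
      (mul35 hc (Or.inl ⟨rfl, rfl⟩) H) (mul35 hc (Or.inr ⟨rfl, rfl⟩) H)⟩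
  right
  by_cases h4 : k = 5 ∧ u + 1 = 3
  · rw [h4.1, h4.2] at H
    refine Or.inl ⟨h4.1, h4.2, Nat.Coprime.mul_dvd_of_dvd_of_dvd
      (by norm_num : Nat.Coprime 77 13) ?_ (mul53 hc (Or.inr (Or.inr ⟨rfl, rfl⟩)) H)⟩
    exact Nat.Coprime.mul_dvd_of_dvd_of_dvd (by norm_num : Nat.Coprime 7 11)
      (mul53 hc (Or.inl ⟨rfl, rfl⟩) H) (mul53 hc (Or.inr (Or.inl ⟨rfl, rfl⟩)) H)
  right
  by_cases h1 : k = u + 1
  · subst h1
    exact ⟨rfl, by omega, fun p hp hd => mulD hc (by omega) hp hd H⟩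
  · obtain ⟨n, a, b⟩ := (bad (by omega) (by omega) h1 h3 h4 (N + c)).notM hc
    exact absurd (H n a) b

end Pool.Agent.Lib.MP_fced27_nt.SunTwo
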