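import Mathlib

set_option autoImplicit false

namespace Pool.Agent.Lib.MP_fced27_nt.SunTwo

open Finset

lemma carry_iff {N K q : ℕ} (h : K ≤ N) (hq : 0 < q) :
    q ≤ K % q + (N - K) % q ↔ N % q < K % q := by
  obtain ⟨D, rfl⟩ := Nat.exists_eq_add_of_le h
  rw [Nat.add_sub_cancel_left]
  have h1 := Nat.mod_lt K hq
  have h2 := Nat.mod_lt D hq
  have h3 := Nat.add_mod K D q
  by_cases hc : q ≤ K % q + D % q
  · have : (K % q + D % q) % q = K % q + D % q - q := by
      rw [Nat.mod_eq_sub_mod hc, Nat.mod_eq_of_lt (by omega)]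
    constructor
    · intro _; omega
    · intro _; exact hc
  · have : (K % q + D % q) % q = K % q + D % q := Nat.mod_eq_of_lt (by omega)
    constructor
    · intro h; exact absurd h hc
    · intro h; omega

lemma val_eq {p N K b : ℕ} (hp : p.Prime) (h : K ≤ N) (hb : N < b) :
    (N.choose K).factorization p = #{i ∈ Ico 1 b | N % p ^ i < K % p ^ i} := by
  rw [Nat.factorization_choose hp h (lt_of_le_of_lt (Nat.log_le_self p N) hb)]
  congr 1
  apply Finset.filter_congr
  intro i _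
  exact carry_iff h (pow_pos hp.pos i)

lemma val_le {p N K N' K' : ℕ} (hp : p.Prime) (h : K ≤ N) (h' : K' ≤ N')
    (H : ∀ i, 1 ≤ i → N % p ^ i < K % p ^ i → N' % p ^ i < K' % p ^ i) :
    (N.choose K).factorization p ≤ (N'.choose K').factorization p := by
  rw [val_eq hp h (show N < N + N' + 1 by omega), val_eq hp h' (show N' < N + N' + 1 by omega)]
  apply Finset.card_le_card
  intro i hi
  simp only [mem_filter, mem_Ico] at hi ⊢
  exact ⟨hi.1, H i hi.1.1 hi.2⟩

lemma not_dvd {p N K : ℕ} (hp : p.Prime) (h : K ≤ N)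
    (H : ∀ i, 1 ≤ i → K % p ^ i ≤ N % p ^ i) : ¬ p ∣ N.choose K := by
  have h1 := val_le (N' := 0) (K' := 0) hp h le_rfl
    (fun i hi hlt => absurd hlt (not_lt.2 (H i hi)))
  intro hd
  have h2 := hp.factorization_pos_of_dvd (Nat.choose_pos h).ne' hd
  simp only [Nat.choose_self, Nat.factorization_one, Finsupp.coe_zero, Pi.zero_apply] at h1
  omega

lemma dvd_of_carry {p N K : ℕ} (hp : p.Prime) (h : K ≤ N) (H : N % p < K % p) :
    p ∣ N.choose K := by
  apply Nat.dvd_of_factorization_pos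
  rw [val_eq hp h (show N < N + 2 by omega)]
  apply Finset.card_ne_zero.2
  refine ⟨1, ?_⟩
  simp only [mem_filter, mem_Ico, pow_one]
  exact ⟨⟨le_rfl, by omega⟩, H⟩

lemma not_dvd_small {p N K : ℕ} (hp : p.Prime) (h : K ≤ N) (hN : N < p * p)
    (H : K % p ≤ N % p) : ¬ p ∣ N.choose K := by
  apply not_dvd hp h
  intro i hi
  rcases Nat.eq_or_lt_of_le hi with rfl | hi
  · simpa using H
  · have : p * p ≤ p ^ i := by rw [← pow_two]; exact Nat.pow_le_pow_right hp.pos hi
    rw [Nat.mod_eq_of_lt (by omega), Nat.mod_eq_of_lt (by omega)]; exact h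

/-- The failure at a large prime. -/
def Bad (k l N : ℕ) : Prop :=
  ∃ n p, N ≤ n ∧ N < p ∧ 1 ≤ n ∧ p.Prime ∧ p ∣ (k * n).choose n ∧ ¬ p ∣ (l * n).choose n ∧
      ¬ p ∣ (k * l * n).choose (l * n) ∧ ¬ p ∣ l ∧ ¬ p ∣ n

lemma generic {k l : ℕ} (t a s b m : ℕ) (h1 : t = k * a + s + 1) (h2 : s + 2 ≤ k)
    (h3 : t = l * b + m) (h4 : 1 ≤ m) (h5 : m ≤ l) (h6 : k * m ≤ t) (h7 : t < l * (s + 1))
    (N : ℕ) : Bad k l N := by
  obtain ⟨c, hc⟩ : ∃ c, c = k * l := ⟨_, rfl⟩
  have hl : 1 ≤ l := by omega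
  have hk : 2 ≤ k := by omega
  have hkc : k ≤ c := by rw [hc]; exact Nat.le_mul_of_pos_right k hl
  have hlc : l ≤ c := by rw [hc]; exact Nat.le_mul_of_pos_left l (by omega)
  have htc : t < c := by
    have : l * (s + 1) ≤ l * k := Nat.mul_le_mul_left l (by omega)
    rw [hc, mul_comm]; omega
  obtain ⟨p, hpl, hp⟩ := Nat.exists_infinite_primes (c * c + c * (N + 2) + 1)
  have hc0 : 0 < c := by omega
  have hcc : c ≤ c * c := Nat.le_mul_of_pos_right c hc0
  have hcp : c < p := by omega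
  obtain ⟨n, r, hdiv, hr⟩ : ∃ n r, c * n + r = t * p ∧ r < c :=
    ⟨t * p / c, t * p % c, Nat.div_add_mod _ _, Nat.mod_lt _ hc0⟩
  have hr0 : r ≠ 0 := by
    rintro rfl
    have hcop : Nat.Coprime c p :=
      ((Nat.Prime.coprime_iff_not_dvd hp).2 (Nat.not_dvd_of_pos_of_lt hc0 hcp)).symm
    have : c ∣ t := hcop.dvd_of_dvd_mul_right ⟨n, by omega⟩
    have := Nat.le_of_dvd (by omega) this
    omega
  have hptp : p ≤ t * p := Nat.le_mul_of_pos_left p (by omega)
  have hnN : N + 1 < n := by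
    have : c * (N + 1) < c * n := by
      have : c * (N + 2) = c * (N + 1) + c := by ring
      omega
    exact Nat.lt_of_mul_lt_mul_left this
  have htp : t * p < c * p := Nat.mul_lt_mul_of_pos_right htc hp.pos
  have hnp : n < p := by
    have : c * n < c * p := by omega
    exact Nat.lt_of_mul_lt_mul_left this
  obtain ⟨L, hL⟩ : ∃ L, l * n = p * a + L := by
    apply Nat.exists_eq_add_of_le
    have e1 : t * p = k * (p * a) + s * p + p := by rw [h1]; ring
    have e2 : c * n = k * (l * n) := by rw [hc]; ring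
    have : k * (p * a) ≤ k * (l * n) := by omega
    exact Nat.le_of_mul_le_mul_left this (by omega)
  obtain ⟨K, hK⟩ : ∃ K, k * n = p * b + K := by
    apply Nat.exists_eq_add_of_le
    have e1 : t * p = l * (p * b) + m * p := by rw [h3]; ring
    have e2 : c * n = l * (k * n) := by rw [hc]; ring
    have e3 : p ≤ m * p := Nat.le_mul_of_pos_left p h4
    have : l * (p * b) ≤ l * (k * n) := by omega
    exact Nat.le_of_mul_le_mul_left this (by omega)
  have eL : k * L + r = (s + 1) * p := by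
    have e1 : t * p = k * (p * a) + (s + 1) * p := by rw [h1]; ring
    have e2 : c * n = k * (p * a) + k * L := by rw [hc, mul_assoc, hL]; ring
    omega
  have eK : l * K + r = m * p := by
    have e1 : t * p = l * (p * b) + m * p := by rw [h3]; ring
    have e2 : c * n = l * (p * b) + l * K := by rw [hc, mul_comm k l, mul_assoc, hK]; ring
    omega
  have hkr : k * r ≤ c * c := Nat.mul_le_mul hkc hr.le
  have hlr : l * r ≤ c * c := Nat.mul_le_mul hlc hr.le
  have hLr : L + r ≤ p := by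
    have e1 : (s + 2) * p ≤ k * p := Nat.mul_le_mul_right p h2
    have e2 : (s + 2) * p = (s + 1) * p + p := by ring
    have : k * (L + r) ≤ k * p := by rw [mul_add]; omega
    exact Nat.le_of_mul_le_mul_left this (by omega)
  have hKn : K < n := by
    have e1 : c * K + k * r = k * m * p := by rw [hc, mul_assoc, ← mul_add, eK]; ring
    have e2 : k * m * p ≤ t * p := Nat.mul_le_mul_right p h6
    have e3 : 2 * r ≤ k * r := Nat.mul_le_mul_right r hk
    have : c * K < c * n := by omega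
    exact Nat.lt_of_mul_lt_mul_left this
  have hnL : n < L := by
    have e1 : c * L + l * r = l * (s + 1) * p := by
      rw [hc, mul_comm k l, mul_assoc, ← mul_add, eL]; ring
    have e2 : (t + 1) * p ≤ l * (s + 1) * p := Nat.mul_le_mul_right p h7
    have e3 : (t + 1) * p = t * p + p := by ring
    have : c * n < c * L := by omega
    exact Nat.lt_of_mul_lt_mul_left this
  have m1 : n % p = n := Nat.mod_eq_of_lt hnp
  have m2 : (l * n) % p = L := by rw [hL, Nat.mul_add_mod, Nat.mod_eq_of_lt (by omega)]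
  have m3 : (k * n) % p = K := by rw [hK, Nat.mul_add_mod, Nat.mod_eq_of_lt (by omega)]
  have m4 : (c * n) % p = p - r := by
    have e1 : t * p = p * (k * a + s) + p := by rw [h1]; ring
    have e2 : c * n = p * (k * a + s) + (p - r) := by omega
    rw [e2, Nat.mul_add_mod, Nat.mod_eq_of_lt (by omega)]
  have b1 : c * p < p * p := Nat.mul_lt_mul_of_pos_right hcp hp.pos
  have b2 : l * n ≤ c * n := Nat.mul_le_mul_right n hlc
  refine ⟨n, p, by omega, by omega, by omega, hp, ?_, ?_, ?_, ?_, ?_⟩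
  · exact dvd_of_carry hp (Nat.le_mul_of_pos_left n (by omega)) (by omega)
  · exact not_dvd_small hp (Nat.le_mul_of_pos_left n hl) (by omega) (by omega)
  · rw [← hc]
    exact not_dvd_small hp b2 (by omega) (by omega)
  · exact Nat.not_dvd_of_pos_of_lt hl (by omega)
  · exact Nat.not_dvd_of_pos_of_lt (by omega) hnp

lemma bad {k l : ℕ} (hk : 3 ≤ k) (hl : 3 ≤ l) (hkl : k ≠ l) (h35 : ¬ (k = 3 ∧ l = 5))
    (h53 : ¬ (k = 5 ∧ l = 3)) (N : ℕ) : Bad k l N := by
  rcases lt_or_gt_of_ne hkl with h | h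
  · obtain ⟨a, s, e, hs⟩ : ∃ a s, k * a + s = l ∧ s < k :=
      ⟨l / k, l % k, Nat.div_add_mod _ _, Nat.mod_lt _ (by omega)⟩
    have ha : a = 0 ∨ a = 1 ∨ 2 ≤ a := by omega
    have h2 : 2 ≤ a → k * 2 ≤ k * a := fun h => Nat.mul_le_mul_left k h
    by_cases c1 : s = 0
    · refine generic (l + 2) a 1 1 2 (by omega) (by omega) (by omega) (by omega) (by omega) ?_
        (by omega) N
      rcases ha with rfl | rfl | ha
      · omega
      · omega
      · have := h2 ha; omega
    by_cases c2 : s + 1 = k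
    · rcases ha with rfl | rfl | ha
      · omega
      · refine generic (2 * l + 1) 3 (k - 2) 2 1 (by omega) (by omega) (by omega) (by omega)
          (by omega) (by omega) ?_ N
        have : l * 3 ≤ l * (k - 2 + 1) := Nat.mul_le_mul_left l (by omega)
        omega
      · have := h2 ha
        refine generic (l + 3) (a + 1) 1 1 3 ?_ (by omega) (by omega) (by omega) (by omega)
          (by omega) (by omega) N
        rw [mul_add]; omega
    · refine generic (l + 1) a s 1 1 (by omega) (by omega) (by omega) (by omega) (by omega)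
        (by omega) ?_ N
      have : l * 2 ≤ l * (s + 1) := Nat.mul_le_mul_left l (by omega)
      omega
  · by_cases c1 : 2 * l < k
    · obtain ⟨b, d, e, hd⟩ : ∃ b d, l * b + d = 2 * k - 2 ∧ d < l :=
        ⟨(2 * k - 2) / l, (2 * k - 2) % l, Nat.div_add_mod _ _, Nat.mod_lt _ (by omega)⟩
      refine generic (2 * k - 1 - d) 1 (k - 2 - d) b 1 (by omega) (by omega) (by omega) (by omega)
        (by omega) (by omega) ?_ N
      have : 3 * (k - 2 - d + 1) ≤ l * (k - 2 - d + 1) := Nat.mul_le_mul_right _ hl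
      omega
    by_cases c2 : k + 2 ≤ 2 * l
    · refine generic (2 * l + 1) 1 (2 * l - k) 2 1 (by omega) (by omega) (by omega) (by omega)
        (by omega) (by omega) ?_ N
      have : l * 3 ≤ l * (2 * l - k + 1) := Nat.mul_le_mul_left l (by omega)
      omega
    · refine generic (3 * l + 1) 1 (3 * l - k) 3 1 (by omega) (by omega) (by omega) (by omega)
        (by omega) (by omega) ?_ N
      have : l * 4 ≤ l * (3 * l - k + 1) := Nat.mul_le_mul_left l (by omega)
      omega

lemma Bad.notA {c k l N : ℕ} (hc : c ≠ 0) (hl : 1 ≤ l) (h : Bad k l (N + c)) :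
    ∃ n, N ≤ n ∧
      ¬ (k * n).choose n ∣ c * ((l * n).choose n * (k * l * n).choose (l * n - 1)) := by
  obtain ⟨n, p, h1, h0, h2, hp, h3, h4, h5, h6, h7⟩ := h
  refine ⟨n, by omega, fun hd => ?_⟩
  rcases (Nat.Prime.dvd_mul hp).1 (h3.trans hd) with h | h
  · exact Nat.not_dvd_of_pos_of_lt (by omega) (by omega) h
  rcases (Nat.Prime.dvd_mul hp).1 h with h | h
  · exact h4 h
  · have e := Nat.choose_succ_right_eq (k * l * n) (l * n - 1)
    have : 1 ≤ l * n := Nat.mul_pos hl h2
    rw [Nat.sub_add_cancel this] at e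
    have : p ∣ (k * l * n).choose (l * n) * (l * n) := e ▸ h.mul_right _
    rcases (Nat.Prime.dvd_mul hp).1 this with h | h
    · exact h5 h
    · rcases (Nat.Prime.dvd_mul hp).1 h with h | h
      · exact h6 h
      · exact h7 h

lemma twoA {l : ℕ} (hl : 3 ≤ l) (N : ℕ) :
    ∃ n, N ≤ n ∧ ∀ d, 1 ≤ d → d ≤ N →
      ¬ (2 * n).choose n ∣ d * ((l * n).choose n * (2 * l * n).choose (l * n - 1)) := by
  obtain ⟨u, rfl⟩ : ∃ u, l = u + 1 := ⟨l - 1, by omega⟩
  obtain ⟨p, hpl, hp, hm⟩ := Nat.forall_exists_prime_gt_and_modEq ((u + 1) * (N + 2))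
    (q := u + 1) (a := u) (by omega) (by simp)
  obtain ⟨c, hc⟩ : ∃ c, p = (u + 1) * c + u := by
    refine ⟨p / (u + 1), ?_⟩
    have e1 := Nat.div_add_mod p (u + 1)
    have e2 : p % (u + 1) = u % (u + 1) := hm
    rw [Nat.mod_eq_of_lt (show u < u + 1 by omega)] at e2
    omega
  have hcN : N + 1 < c := by
    have : (u + 1) * (N + 1) < (u + 1) * c := by
      have : (u + 1) * (N + 2) = (u + 1) * (N + 1) + u + 1 := by ring
      omega
    exact Nat.lt_of_mul_lt_mul_left this
  obtain ⟨v, rfl⟩ : ∃ v, u = v + 1 := ⟨u - 1, by omega⟩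
  obtain ⟨n, hn⟩ : ∃ n, n = v * c + c + v := ⟨_, rfl⟩
  have hp1 : p = n + c + 1 := by rw [hc, hn]; ring
  have hvc : c ≤ v * c := Nat.le_mul_of_pos_left c (by omega)
  have e1 : (v + 1 + 1) * n = p * v + (p - 1) := by
    have : p - 1 = n + c := by omega
    rw [this, hp1, hn]; ring
  have e2 : 2 * (v + 1 + 1) * n = p * (2 * v + 1) + (p - 2) := by
    have : p * (2 * v + 1) = 2 * (p * v) + p := by ring
    rw [mul_assoc, e1]; omega
  have e3 : (v + 1 + 1) * n - 1 = p * v + (p - 2) := by omega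
  have b1 : p * (2 * v + 2) ≤ p * p := by
    apply Nat.mul_le_mul_left
    have : (v + 1 + 1) * 2 ≤ (v + 1 + 1) * (N + 2) := Nat.mul_le_mul_left _ (by omega)
    omega
  have b2 : p * (2 * v + 2) = p * (2 * v + 1) + p := by ring
  have b3 : p * (2 * v + 1) = 2 * (p * v) + p := by ring
  have m1 : n % p = n := Nat.mod_eq_of_lt (by omega)
  refine ⟨n, by omega, fun d hd1 hd2 hd => ?_⟩
  have d1 : p ∣ (2 * n).choose n := by
    apply dvd_of_carry hp (by omega)
    rw [m1, Nat.mod_eq_sub_mod (by omega), Nat.mod_eq_of_lt (by omega)]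
    omega
  rcases (Nat.Prime.dvd_mul hp).1 (d1.trans hd) with h | h
  · exact Nat.not_dvd_of_pos_of_lt (by omega) (by omega) h
  rcases (Nat.Prime.dvd_mul hp).1 h with h | h
  · refine not_dvd_small hp (Nat.le_mul_of_pos_left n (by omega)) (by omega) ?_ h
    rw [m1, e1, Nat.mul_add_mod, Nat.mod_eq_of_lt (by omega)]
    omega
  · refine not_dvd_small hp (by omega) (by omega) ?_ h
    rw [e3, e2, Nat.mul_add_mod, Nat.mul_add_mod]

lemma exists_n {c p h : ℕ} (hp : p.Prime) (hc : 0 < c) (hpc : ¬ p ∣ c) (hh : 1 ≤ h) (N : ℕ) :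
    ∃ n T, N ≤ n ∧ 1 ≤ n ∧ 1 ≤ T ∧ c * n + h = h * p ^ T := by
  have hcop : Nat.Coprime p c := (Nat.Prime.coprime_iff_not_dvd hp).2 hpc
  have h1 : p ^ c.totient ≡ 1 [MOD c] := Nat.ModEq.pow_totient hcop
  have h2 := h1.pow (c * (N + 1) + 1)
  rw [one_pow, ← pow_mul] at h2
  obtain ⟨T, hT⟩ : ∃ T, T = c.totient * (c * (N + 1) + 1) := ⟨_, rfl⟩
  rw [← hT] at h2
  have h3 : c * (N + 1) + 1 ≤ T := by
    rw [hT]; exact Nat.le_mul_of_pos_left _ (Nat.totient_pos.2 hc)
  have h4 : T < p ^ T := Nat.lt_pow_self hp.one_lt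
  obtain ⟨w, hw⟩ := (Nat.modEq_iff_dvd' (by omega : 1 ≤ p ^ T)).1 h2.symm
  have h5 : N + 1 < w := by
    have : c * (N + 1) < c * w := by omega
    exact Nat.lt_of_mul_lt_mul_left this
  have h6 : w ≤ h * w := Nat.le_mul_of_pos_left w hh
  refine ⟨h * w, T, by omega, by omega, by omega, ?_⟩
  have : p ^ T = c * w + 1 := by omega
  rw [this]; ring

lemma mod_cases (c n : ℕ) {q : ℕ} (hc : 0 < c) (hq : 0 < q) :
    ∃ j, j < c ∧ c * (n % q) = q * j + (c * n) % q := by
  refine ⟨c * (n % q) / q, ?_, ?_⟩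
  · rw [Nat.div_lt_iff_lt_mul hq]
    exact Nat.mul_lt_mul_of_pos_left (Nat.mod_lt _ hq) hc
  · have := Nat.div_add_mod (c * (n % q)) q
    rw [Nat.mul_mod_mod] at this
    exact this.symm

lemma cast_dvd {p a : ℕ} (h : p ∣ a) : (a : ZMod p) = 0 := (ZMod.natCast_eq_zero_iff a p).2 h

lemma pow_dvd {p h T a : ℕ} (hT : 1 ≤ T) (e : a = h * p ^ T) : p ∣ a :=
  e ▸ (dvd_pow_self p (by omega)).mul_left h

theorem partA {c k l N : ℕ} (hc : c ≠ 0) (hk : 2 ≤ k) (hl : 2 ≤ l)
    (H : ∀ n, N ≤ n →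
      (k * n).choose n ∣ c * ((l * n).choose n * (k * l * n).choose (l * n - 1))) :
    k = l ∨ l = 2 ∨ (k = 3 ∧ l = 5) ∨ (k = 5 ∧ l = 3) := by
  by_contra hc'
  simp only [not_or] at hc'
  obtain ⟨h1, h2, h3, h4⟩ := hc'
  by_cases h5 : k = 2
  · subst h5
    obtain ⟨n, a, b⟩ := twoA (l := l) (by omega) (N + c)
    exact b c (by omega) (by omega) (H n (by omega))
  · obtain ⟨n, a, b⟩ := (bad (by omega) (by omega) h1 h3 h4 (N + c)).notA hc (by omega)
    exact b (H n a)

lemma dvd_of_carries {N K N' K' N'' K'' : ℕ} (h : K ≤ N) (h' : K' ≤ N') (h'' : K'' ≤ N'')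
    (H : ∀ q, 2 ≤ q → N % q < K % q → N' % q < K' % q ∨ N'' % q < K'' % q) :
    N.choose K ∣ N'.choose K' * N''.choose K'' := by
  have p1 := (Nat.choose_pos h).ne'
  have p2 := (Nat.choose_pos h').ne'
  have p3 := (Nat.choose_pos h'').ne'
  rw [← Nat.factorization_prime_le_iff_dvd p1 (mul_ne_zero p2 p3)]
  intro p hp
  rw [Nat.factorization_mul p2 p3, Finsupp.add_apply,
    val_eq hp h (show N < N + N' + N'' + 1 by omega),
    val_eq hp h' (show N' < N + N' + N'' + 1 by omega),
    val_eq hp h'' (show N'' < N + N' + N'' + 1 by omega)]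
  refine le_trans (Finset.card_le_card ?_) (Finset.card_union_le _ _)
  intro i hi
  simp only [mem_filter, mem_union, mem_Ico] at hi ⊢
  have hq : 2 ≤ p ^ i := hp.two_le.trans (Nat.le_self_pow (by omega) p)
  rcases H _ hq hi.2 with a | a
  · exact Or.inl ⟨hi.1, a⟩
  · exact Or.inr ⟨hi.1, a⟩

lemma pred_mod {M q : ℕ} (hq : 0 < q) (h : 1 ≤ M % q) : (M - 1) % q + 1 = M % q := by
  have e := Nat.div_add_mod M q
  have b := Nat.mod_lt M hq
  have : M - 1 = q * (M / q) + (M % q - 1) := by omega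
  rw [this, Nat.mul_add_mod, Nat.mod_eq_of_lt (by omega)]
  omega

theorem convA {k l n : ℕ} (hk : 1 ≤ k) (hl : 1 ≤ l)
    (H : k = l ∨ l = 2 ∨ (k = 3 ∧ l = 5) ∨ (k = 5 ∧ l = 3)) :
    (k * n).choose n ∣ (l * n).choose n * (k * l * n).choose (l * n - 1) := by
  have l2 : l * n ≤ k * l * n := by rw [mul_assoc]; exact Nat.le_mul_of_pos_left _ hk
  rcases H with rfl | H
  · exact dvd_mul_right _ _
  apply dvd_of_carries (Nat.le_mul_of_pos_left n hk) (Nat.le_mul_of_pos_left n hl) (by omega)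
  intro q hq a1
  by_contra hc
  simp only [not_or, not_lt] at hc
  obtain ⟨a2, a3⟩ := hc
  have a4 := pred_mod (M := l * n) (q := q) (by omega) (by omega)
  have b0 := Nat.mod_lt n (show 0 < q by omega)
  rcases H with rfl | ⟨rfl, rfl⟩ | ⟨rfl, rfl⟩
  · obtain ⟨j, b1, b2⟩ := mod_cases 2 (k * n) (q := q) (by omega) (by omega)
    obtain ⟨j', b3, b4⟩ := mod_cases 2 n (q := q) (by omega) (by omega)
    have b7 : k * 2 * n = 2 * (k * n) := by ring
    rw [b7] at a3
    interval_cases j <;> interval_cases j' <;> omega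
  all_goals
    obtain ⟨j, b1, b2⟩ := mod_cases 15 n (q := q) (by omega) (by omega)
    obtain ⟨j', b3, b4⟩ := mod_cases 5 n (q := q) (by omega) (by omega)
    obtain ⟨j'', b5, b6⟩ := mod_cases 3 n (q := q) (by omega) (by omega)
    have b7 := Nat.mod_lt (5 * n) (show 0 < q by omega)
    have b8 := Nat.mod_lt (3 * n) (show 0 < q by omega)
    have b9 := Nat.mod_lt (15 * n) (show 0 < q by omega)
    norm_num at a3
    generalize (_ * n - 1) % q = v at *
    generalize 15 * n % q = x at *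
    generalize 5 * n % q = y at *
    generalize 3 * n % q = z at *
    generalize n % q = w at *
    interval_cases j <;> interval_cases j' <;> interval_cases j'' <;> omega

end Pool.Agent.Lib.MP_fced27_nt.SunTwo
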