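import Pool.Agent.Lib.MP_fced27_nt.Carry

set_option autoImplicit false

namespace Pool.Agent.Lib.MP_fced27_nt

theorem dvd_choose_of_carries {p u w : ℕ} (hp : p.Prime) (S : Finset ℕ)
    (h : ∀ i ∈ S, 1 ≤ i ∧ p ^ i ≤ u % p ^ i + w % p ^ i) : p ^ S.card ∣ (u + w).choose u := by
  have hpos : (u + w).choose u ≠ 0 := (Nat.choose_pos (Nat.le_add_right _ _)).ne'
  rw [hp.pow_dvd_iff_le_factorization hpos, add_comm,
    Nat.factorization_choose' hp (Nat.lt_succ_self _)]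
  refine Finset.card_le_card fun i hi => Finset.mem_filter.2 ⟨Finset.mem_Ico.2 ⟨(h i hi).1, ?_⟩,
    (h i hi).2⟩
  have h1 : p ^ i ≤ w + u := by
    have := (h i hi).2
    have := Nat.mod_le u (p ^ i)
    have := Nat.mod_le w (p ^ i)
    omega
  exact Nat.lt_succ_of_le (Nat.le_log_of_pow_le hp.one_lt h1)

/-- number of digits `P - 1` among the lowest `B` digits in base `P` -/
def cnt (P : ℕ) : ℕ → ℕ → ℕ
  | 0, _ => 0
  | B + 1, n => (if n % P = P - 1 then 1 else 0) + cnt P B (n / P)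

theorem few_digits {P : ℕ} (hP : 0 < P) (B : ℕ) : ∀ t, ∃ F : Finset ℕ,
    (F.card : ℝ) ≤ 2 ^ t * ((P : ℝ) - 1 / 2) ^ B ∧ ∀ n, n < P ^ B → cnt P B n < t → n ∈ F := by
  have hP' : (1 : ℝ) ≤ P := by exact_mod_cast hP
  induction B with
  | zero =>
    intro t
    refine ⟨{0}, by simpa using one_le_pow₀ (by norm_num : (1 : ℝ) ≤ 2), fun n hn _ => ?_⟩
    simp at hn ⊢
    omega
  | succ B ih =>
    intro t
    rcases t with _ | t
    · exact ⟨∅, by simp only [Finset.card_empty, Nat.cast_zero]; have : (0 : ℝ) < P - 1 / 2 := by linarith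
                   positivity, fun n _ h => absurd h (Nat.not_lt_zero _)⟩
    obtain ⟨F, hF, hF'⟩ := ih (t + 1)
    obtain ⟨G, hG, hG'⟩ := ih t
    refine ⟨(Finset.range (P - 1) ×ˢ F).image (fun x => x.1 + P * x.2) ∪
      G.image (fun x => P - 1 + P * x), ?_, fun n hn hc => ?_⟩
    · have h1 := Finset.card_union_le ((Finset.range (P - 1) ×ˢ F).image (fun x => x.1 + P * x.2))
        (G.image (fun x => P - 1 + P * x))
      have h2 := Finset.card_image_le (s := Finset.range (P - 1) ×ˢ F) (f := fun x => x.1 + P * x.2)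
      have h3 := Finset.card_image_le (s := G) (f := fun x => P - 1 + P * x)
      rw [Finset.card_product, Finset.card_range] at h2
      have h4 := (Nat.cast_le (α := ℝ)).2 (h1.trans (add_le_add h2 h3))
      refine h4.trans ?_
      rw [Nat.cast_add, Nat.cast_mul, Nat.cast_sub hP, Nat.cast_one]
      have h5 := mul_le_mul_of_nonneg_left hF (show (0 : ℝ) ≤ P - 1 by linarith)
      refine (add_le_add h5 hG).trans (le_of_eq ?_)
      ring
    · have h1 : n / P < P ^ B := by rw [Nat.div_lt_iff_lt_mul hP, ← pow_succ]; exact hn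
      have h2 := Nat.mod_add_div n P
      have h3 := Nat.mod_lt n hP
      simp only [cnt] at hc
      rw [Finset.mem_union]
      split_ifs at hc with h4
      · exact Or.inr (Finset.mem_image.2 ⟨n / P, hG' _ h1 (by omega), by omega⟩)
      · exact Or.inl (Finset.mem_image.2 ⟨(n % P, n / P), Finset.mem_product.2
          ⟨Finset.mem_range.2 (by simp only; omega), hF' _ h1 (by simp only; omega)⟩, h2⟩)

theorem neg_mod {M k y n : ℕ} (hk : 0 < k) (hy : 0 < y) (hn : n % M + y = M) (h : k * y < M) :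
    k * n % M + k * y = M := by
  have h1 : 0 < k * y := Nat.mul_pos hk hy
  have h2 : M ∣ k * n + k * y := by
    refine ⟨k * (n / M + 1), ?_⟩
    have := Nat.mod_add_div n M
    have e : n + y = M * (n / M + 1) := by rw [mul_add]; omega
    rw [← mul_add, e]; ring
  have h3 := Nat.mod_lt (k * n) (show 0 < M by omega)
  have h4 : M ∣ k * n % M + k * y := by
    have := Nat.mod_add_div (k * n) M
    have e : k * n + k * y = k * n % M + k * y + M * (k * n / M) := by omega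
    rw [e] at h2
    exact (Nat.dvd_add_left (Dvd.intro _ rfl)).1 h2
  obtain ⟨c, hc⟩ := h4
  have : c < 2 := by
    by_contra h5
    have : M * 2 ≤ M * c := Nat.mul_le_mul_left _ (by omega)
    omega
  interval_cases c <;> omega

/-- a top digit in base `P ≥ k + l` forces a carry -/
theorem block_carry {P k l n i : ℕ} (hk : 0 < k) (hl : 0 < l) (hP : k + l ≤ P)
    (h : n / P ^ i % P = P - 1) :
    P ^ (i + 1) ≤ k * n % P ^ (i + 1) + l * n % P ^ (i + 1) := by
  have hp : 0 < P ^ i := pow_pos (by omega) i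
  have h1 := Nat.mod_lt n hp
  obtain ⟨y, hy⟩ : ∃ y, n % P ^ i + y = P ^ i := ⟨P ^ i - n % P ^ i, by omega⟩
  have h2 : n % P ^ (i + 1) + y = P ^ (i + 1) := by
    rw [pow_succ, Nat.mod_mul, h, Nat.mul_sub_one]
    have : P ^ i ≤ P ^ i * P := Nat.le_mul_of_pos_right _ (by omega)
    omega
  have h3 : (k + l) * y ≤ P ^ (i + 1) := by
    rw [pow_succ']; exact Nat.mul_le_mul hP (hy ▸ Nat.le_add_left _ _)
  have h4 : 0 < k * y := Nat.mul_pos hk (by omega)
  have h5 : 0 < l * y := Nat.mul_pos hl (by omega)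
  rw [add_mul] at h3
  have := neg_mod hk (by omega) h2 (by omega)
  have := neg_mod hl (by omega) h2 (by omega)
  omega

theorem block_set {p h k l n : ℕ} (hk : 0 < k) (hl : 0 < l) (hP : k + l ≤ p ^ h) (hh : 0 < h)
    (B : ℕ) : ∀ i, ∃ S : Finset ℕ, S.card = cnt (p ^ h) B (n / (p ^ h) ^ i) ∧
      ∀ s ∈ S, h * (i + 1) ≤ s ∧ p ^ s ≤ k * n % p ^ s + l * n % p ^ s := by
  induction B with
  | zero => intro i; exact ⟨∅, rfl, by simp⟩
  | succ B ih =>
    intro i
    obtain ⟨S, h1, h2⟩ := ih (i + 1)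
    have e : n / (p ^ h) ^ i / p ^ h = n / (p ^ h) ^ (i + 1) := by
      rw [Nat.div_div_eq_div_mul, ← pow_succ]
    have h3 : ∀ s ∈ S, h * (i + 1) < s := fun s hs => by
      have := (h2 s hs).1
      rw [mul_add h (i + 1)] at this
      omega
    simp only [cnt, e]
    split_ifs with h4
    · refine ⟨insert (h * (i + 1)) S, ?_, fun s hs => ?_⟩
      · rw [Finset.card_insert_of_notMem (fun hs => lt_irrefl _ (h3 _ hs)), h1, add_comm]
      · rcases Finset.mem_insert.1 hs with rfl | hs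
        · exact ⟨le_rfl, by rw [pow_mul]; exact block_carry hk hl hP h4⟩
        · exact ⟨(h3 s hs).le, (h2 s hs).2⟩
    · exact ⟨S, by rw [h1, zero_add], fun s hs => ⟨(h3 s hs).le, (h2 s hs).2⟩⟩

theorem low_carry {p k l n i : ℕ} (hp : p.Prime) (hi : 0 < i) (hd : p ^ i ∣ l * n + 1)
    (hk : ¬ p ^ i ∣ k) : p ^ i ≤ k * n % p ^ i + l * n % p ^ i := by
  have h0 : 0 < p ^ i := pow_pos hp.pos i
  have h1 : Nat.Coprime (p ^ i) n := by
    refine Nat.Coprime.pow_left _ ((Nat.Prime.coprime_iff_not_dvd hp).2 fun h => ?_)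
    have := (Nat.dvd_add_right (Dvd.dvd.mul_left h l)).1 ((dvd_pow_self p hi.ne').trans hd)
    exact hp.one_lt.ne' (Nat.dvd_one.1 this)
  have h2 : k * n % p ^ i ≠ 0 := fun h => hk (h1.dvd_of_dvd_mul_right (Nat.dvd_of_mod_eq_zero h))
  have h3 : p ^ i ∣ l * n % p ^ i + 1 := by
    have := Nat.mod_add_div (l * n) (p ^ i)
    have e : l * n + 1 = l * n % p ^ i + 1 + p ^ i * (l * n / p ^ i) := by omega
    rw [e] at hd
    exact (Nat.dvd_add_left (Dvd.intro _ rfl)).1 hd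
  have := Nat.le_of_dvd (Nat.succ_pos _) h3
  have := Nat.pos_of_ne_zero h2
  omega

/-- exceptions at the prime `p` -/
def Exc (p k l n : ℕ) : Prop := ∃ j, p ^ j ∣ l * n + 1 ∧ ¬ p ^ j ∣ (k * n + l * n).choose (k * n)

theorem exc_dvd {p k l n : ℕ} (hp : p.Prime) (h : Exc p k l n) : p ∣ k := by
  obtain ⟨j, h1, h2⟩ := h
  by_contra hk
  have := dvd_choose_of_carries (u := k * n) (w := l * n) hp (Finset.Ioc 0 j) fun i hi => by
    rw [Finset.mem_Ioc] at hi
    exact ⟨hi.1, low_carry hp hi.1 ((pow_dvd_pow p hi.2).trans h1)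
      fun h => hk ((dvd_pow_self p hi.1.ne').trans h)⟩
  exact h2 (by simpa using this)

theorem exc_digits {p h k l n B : ℕ} (hp : p.Prime) (hk : 0 < k) (hl : 0 < l) (hP : k + l ≤ p ^ h)
    (hh : 0 < h) (he : Exc p k l n) :
    ∃ i, i ≤ B ∧ (p ^ h) ^ i ∣ l * n + 1 ∧ cnt (p ^ h) (B - i) (n / (p ^ h) ^ i) < k := by
  obtain ⟨j, h1, h2⟩ := he
  have h3 : h * (j / h) ≤ j := Nat.mul_div_le j h
  rcases le_total B (j / h) with hB | hB
  · refine ⟨B, le_rfl, ?_, by simpa [cnt] using hk⟩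
    rw [← pow_mul]
    exact (pow_dvd_pow p ((Nat.mul_le_mul_left h hB).trans h3)).trans h1
  refine ⟨j / h, hB, by rw [← pow_mul]; exact (pow_dvd_pow p h3).trans h1, ?_⟩
  obtain ⟨S, a1, a2⟩ := block_set (n := n) hk hl hP hh (B - j / h) (j / h)
  have a3 : j < h * (j / h + 1) := Nat.lt_mul_div_succ j hh
  have a4 := dvd_choose_of_carries (u := k * n) (w := l * n) hp (Finset.Ioc k j ∪ S) fun i hi => by
    rcases Finset.mem_union.1 hi with hi | hi
    · rw [Finset.mem_Ioc] at hi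
      refine ⟨by omega, low_carry hp (by omega) ((pow_dvd_pow p hi.2).trans h1) fun h => ?_⟩
      have := Nat.le_of_dvd hk h
      have := Nat.lt_pow_self (n := i) hp.one_lt
      omega
    · exact ⟨by have := (a2 i hi).1; omega, (a2 i hi).2⟩
  rw [Finset.card_union_of_disjoint (Finset.disjoint_left.2 fun i hi hi' => by
    have := (a2 i hi').1
    have := (Finset.mem_Ioc.1 hi).2
    omega), Nat.card_Ioc, a1] at a4
  by_contra hc
  exact h2 ((pow_dvd_pow p (by omega)).trans a4)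

theorem exc_count {p h k l : ℕ} (hp : p.Prime) (hk : 0 < k) (hl : 0 < l) (hP : k + l ≤ p ^ h)
    (hh : 0 < h) (B : ℕ) : ∃ F : Finset ℕ,
      (F.card : ℝ) ≤ (B + 1) * (2 ^ k * (((p ^ h : ℕ) : ℝ) - 1 / 2) ^ B) ∧
        ∀ n, n < (p ^ h) ^ B → Exc p k l n → n ∈ F := by
  classical
  obtain ⟨P, hPe⟩ : ∃ P, P = p ^ h := ⟨_, rfl⟩
  have key := fun n (he : Exc p k l n) => exc_digits (B := B) hp hk hl hP hh he
  rw [← hPe] at hP key ⊢
  have hP2 : (2 : ℝ) ≤ P := by exact_mod_cast (show 2 ≤ P by omega)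
  choose F hF hF' using fun B => few_digits (show 0 < P by omega) B k
  refine ⟨(Finset.range (B + 1)).biUnion fun i => (Finset.range (P ^ B)).filter
    (fun n => P ^ i ∣ l * n + 1 ∧ n / P ^ i ∈ F (B - i)), ?_, fun n hn he => ?_⟩
  · have h1 : ∀ i ∈ Finset.range (B + 1), (((Finset.range (P ^ B)).filter
        (fun n => P ^ i ∣ l * n + 1 ∧ n / P ^ i ∈ F (B - i))).card : ℝ) ≤
          2 ^ k * ((P : ℝ) - 1 / 2) ^ B := by
      intro i _
      have h2 : ((Finset.range (P ^ B)).filter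
          (fun n => P ^ i ∣ l * n + 1 ∧ n / P ^ i ∈ F (B - i))).card ≤ (F (B - i)).card := by
        refine Finset.card_le_card_of_injOn (fun n => n / P ^ i)
          (fun n hn => (Finset.mem_filter.1 hn).2.2) fun n hn n' hn' e => ?_
        have a1 := (Finset.mem_filter.1 hn).2.1
        have a2 := (Finset.mem_filter.1 hn').2.1
        have a3 : Nat.Coprime (P ^ i) l := by
          have := Nat.Coprime.coprime_dvd_left a1 (show Nat.Coprime (l * n + 1) l by simp)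
          exact this
        have a4 : l * n + 1 ≡ l * n' + 1 [MOD P ^ i] :=
          ((Nat.modEq_zero_iff_dvd).2 a1).trans ((Nat.modEq_zero_iff_dvd).2 a2).symm
        have a5 : n % P ^ i = n' % P ^ i :=
          Nat.ModEq.cancel_left_of_coprime a3 (Nat.ModEq.add_right_cancel' 1 a4)
        rw [← Nat.mod_add_div n (P ^ i), ← Nat.mod_add_div n' (P ^ i), a5, show n / P ^ i =
          n' / P ^ i from e]
      refine ((Nat.cast_le (α := ℝ)).2 h2).trans ((hF _).trans ?_)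
      exact mul_le_mul_of_nonneg_left (pow_le_pow_right₀ (by linarith) (Nat.sub_le _ _))
        (by positivity)
    refine ((Nat.cast_le (α := ℝ)).2 Finset.card_biUnion_le).trans ?_
    rw [Nat.cast_sum]
    simpa using Finset.sum_le_card_nsmul _ _ _ h1
  · obtain ⟨i, a1, a2, a3⟩ := key n he
    refine Finset.mem_biUnion.2 ⟨i, Finset.mem_range.2 (by omega), Finset.mem_filter.2
      ⟨Finset.mem_range.2 hn, a2, hF' _ _ ?_ a3⟩⟩
    rw [Nat.div_lt_iff_lt_mul (pow_pos (by omega) i), ← pow_add, Nat.sub_add_cancel a1]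
    exact hn

/-- a set of natural numbers with a power saving -/
def Small (p : ℕ → Prop) : Prop := ∃ θ C : ℝ, θ < 1 ∧ 0 ≤ C ∧ ∀ X : ℕ, 1 ≤ X →
  ({n : ℕ | n ≤ X ∧ p n}.ncard : ℝ) ≤ C * (X : ℝ) ^ θ

theorem small_exc {p k l : ℕ} (hp : p.Prime) (hk : 0 < k) (hl : 0 < l) : Small (Exc p k l) := by
  have hP : k + l ≤ p ^ (k + l) := (Nat.lt_pow_self hp.one_lt).le
  have key := exc_count hp hk hl hP (by omega)
  obtain ⟨P, hPe⟩ : ∃ P, P = p ^ (k + l) := ⟨_, rfl⟩
  rw [← hPe] at hP key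
  have hP2 : (2 : ℝ) ≤ P := by exact_mod_cast (show 2 ≤ P by omega)
  have hl0 : 0 < Real.log P := Real.log_pos (by linarith)
  have hθ0 : 0 ≤ Real.log (P - 1 / 4) / Real.log P :=
    div_nonneg (Real.log_nonneg (by linarith)) hl0.le
  refine ⟨Real.log (P - 1 / 4) / Real.log P, 2 ^ k * (4 * P) * P, ?_, by positivity,
    fun X hX => ?_⟩
  · rw [div_lt_one hl0]; exact Real.log_lt_log (by linarith) (by linarith)
  obtain ⟨F, h1, h2⟩ := key (Nat.log P X + 1)
  have h3 := Nat.lt_pow_succ_log_self (show 1 < P by omega) X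
  have h4 := Nat.pow_log_le_self P (show X ≠ 0 by omega)
  generalize Nat.log P X = B at h1 h2 h3 h4
  have h5 : {n : ℕ | n ≤ X ∧ Exc p k l n}.ncard ≤ F.card := by
    rw [← Set.ncard_coe_finset]
    exact Set.ncard_le_ncard (fun n hn => h2 n (lt_of_le_of_lt hn.1 h3) hn.2) F.finite_toSet
  refine ((Nat.cast_le (α := ℝ)).2 h5).trans (h1.trans ?_)
  have a0 : (0 : ℝ) < P - 1 / 2 := by linarith
  have a1 := one_add_mul_le_pow (a := 1 / (4 * (P : ℝ))) (by
    have : (0 : ℝ) ≤ 1 / (4 * (P : ℝ)) := by positivity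
    linarith) (B + 1)
  have a2 : ((B + 1 : ℕ) : ℝ) + 1 ≤ 4 * P * (1 + 1 / (4 * (P : ℝ))) ^ (B + 1) := by
    refine le_trans ?_ (mul_le_mul_of_nonneg_left a1 (by positivity))
    have : (4 * P : ℝ) * (1 + ((B + 1 : ℕ) : ℝ) * (1 / (4 * (P : ℝ)))) = 4 * P + (B + 1 : ℕ) := by
      field_simp
    rw [this]; linarith
  have a3 : (1 + 1 / (4 * (P : ℝ))) * (P - 1 / 2) ≤ P - 1 / 4 := by
    have : (1 + 1 / (4 * (P : ℝ))) * (P - 1 / 2) = P - 1 / 4 - 1 / (8 * P) := by field_simp; ring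
    rw [this]
    have : (0 : ℝ) ≤ 1 / (8 * (P : ℝ)) := by positivity
    linarith
  have a4 := pow_le_pow_left₀ (by positivity) a3 (B + 1)
  have a5 : ((P : ℝ) - 1 / 4) ^ B ≤ (X : ℝ) ^ (Real.log (P - 1 / 4) / Real.log P) := by
    refine le_trans (le_of_eq ?_) (Real.rpow_le_rpow (by positivity)
      (show ((P : ℝ)) ^ B ≤ X by exact_mod_cast h4) hθ0)
    rw [← Real.rpow_natCast (P : ℝ), ← Real.rpow_mul (by positivity),
      Real.rpow_def_of_pos (by positivity), ← Real.rpow_natCast, Real.rpow_def_of_pos (by linarith)]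
    congr 1
    field_simp
  have a6 : ((P : ℝ) - 1 / 4) ^ (B + 1) ≤ P * (X : ℝ) ^ (Real.log (P - 1 / 4) / Real.log P) := by
    rw [pow_succ']
    exact mul_le_mul (by linarith) a5 (pow_nonneg (by linarith) _) (by positivity)
  calc (((B + 1 : ℕ) : ℝ) + 1) * (2 ^ k * ((P : ℝ) - 1 / 2) ^ (B + 1))
      ≤ (4 * P * (1 + 1 / (4 * (P : ℝ))) ^ (B + 1)) * (2 ^ k * ((P : ℝ) - 1 / 2) ^ (B + 1)) :=
        mul_le_mul_of_nonneg_right a2 (by positivity)
    _ = 2 ^ k * (4 * P) * ((1 + 1 / (4 * (P : ℝ))) * (P - 1 / 2)) ^ (B + 1) := by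
        rw [mul_pow]; ring
    _ ≤ 2 ^ k * (4 * P) * (P * (X : ℝ) ^ (Real.log (P - 1 / 4) / Real.log P)) :=
        mul_le_mul_of_nonneg_left (a4.trans a6) (by positivity)
    _ = _ := by ring

theorem small_union (s : Finset ℕ) (f : ℕ → ℕ → Prop) (h : ∀ p ∈ s, Small (f p)) :
    Small (fun n => ∃ p ∈ s, f p n) := by
  induction s using Finset.induction_on with
  | empty => exact ⟨0, 0, by norm_num, le_rfl, fun X _ => by simp⟩
  | insert a s _ ih =>
    obtain ⟨θ, C, a1, a2, a3⟩ := h a (Finset.mem_insert_self a s)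
    obtain ⟨θ', C', b1, b2, b3⟩ := ih fun p hp => h p (Finset.mem_insert_of_mem hp)
    refine ⟨max θ θ', C + C', max_lt a1 b1, add_nonneg a2 b2, fun X hX => ?_⟩
    have hX' : (1 : ℝ) ≤ X := by exact_mod_cast hX
    have e : {n : ℕ | n ≤ X ∧ ∃ p ∈ insert a s, f p n} =
        {n : ℕ | n ≤ X ∧ f a n} ∪ {n : ℕ | n ≤ X ∧ ∃ p ∈ s, f p n} := by
      ext n; simp [and_or_left]
    rw [e]
    refine ((Nat.cast_le (α := ℝ)).2 (Set.ncard_union_le _ _)).trans ?_
    rw [Nat.cast_add, add_mul]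
    exact add_le_add
      ((a3 X hX).trans (mul_le_mul_of_nonneg_left
        (Real.rpow_le_rpow_of_exponent_le hX' (le_max_left _ _)) a2))
      ((b3 X hX).trans (mul_le_mul_of_nonneg_left
        (Real.rpow_le_rpow_of_exponent_le hX' (le_max_right _ _)) b2))

theorem upper {k l : ℕ} (hk : 0 < k) (hl : 0 < l) :
    ∃ δ : ℝ, 0 < δ ∧ ∃ X₀ : ℕ, ∀ X : ℕ, X₀ ≤ X →
      ({n : ℕ | n ≤ X ∧ ¬ l * n + 1 ∣ (k * n + l * n).choose (k * n)}.ncard : ℝ) ≤
        (X : ℝ) ^ (1 - δ) := by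
  obtain ⟨θ, C, h1, h2, h3⟩ := small_union k.primeFactors (fun p => Exc p k l)
    fun p hp => small_exc (Nat.prime_of_mem_primeFactors hp) hk hl
  have h4 : Filter.Tendsto (fun X : ℕ => (X : ℝ) ^ ((1 - θ) / 2)) Filter.atTop Filter.atTop :=
    (tendsto_rpow_atTop (by linarith)).comp tendsto_natCast_atTop_atTop
  obtain ⟨X₀, h5⟩ := Filter.eventually_atTop.1 (h4.eventually_ge_atTop C)
  refine ⟨(1 - θ) / 2, by linarith, X₀ + 1, fun X hX => ?_⟩
  have hX' : (0 : ℝ) < X := by exact_mod_cast (show 0 < X by omega)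
  have h6 : {n : ℕ | n ≤ X ∧ ¬ l * n + 1 ∣ (k * n + l * n).choose (k * n)}.ncard ≤
      {n : ℕ | n ≤ X ∧ ∃ p ∈ k.primeFactors, Exc p k l n}.ncard := by
    refine Set.ncard_le_ncard (fun n hn => ⟨hn.1, ?_⟩)
      ((Set.finite_Iic X).subset fun n hn => hn.1)
    have := hn.2
    rw [Nat.dvd_iff_prime_pow_dvd_dvd] at this
    push Not at this
    obtain ⟨p, j, a1, a2, a3⟩ := this
    exact ⟨p, Nat.mem_primeFactors.2 ⟨a1, exc_dvd a1 ⟨j, a2, a3⟩, hk.ne'⟩, j, a2, a3⟩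
  refine ((Nat.cast_le (α := ℝ)).2 h6).trans ((h3 X (by omega)).trans ?_)
  rw [show 1 - (1 - θ) / 2 = (1 - θ) / 2 + θ by ring, Real.rpow_add hX']
  exact mul_le_mul_of_nonneg_right (h5 X (by omega)) (by positivity)

theorem lower {k l p : ℕ} (hp : p.Prime) (hk : p ∣ k) (hl : ¬ p ∣ l) :
    ∃ δ : ℝ, 0 < δ ∧ ∃ X₀ : ℕ, ∀ X : ℕ, X₀ ≤ X → (X : ℝ) ^ δ ≤
      ({n : ℕ | n ≤ X ∧ ¬ l * n + 1 ∣ (k * n + l * n).choose (k * n)}.ncard : ℝ) := by
  have ha : ¬ p ∣ k + l := fun h => hl ((Nat.dvd_add_right hk).1 h)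
  have h0 : 0 < k + l := Nat.pos_of_ne_zero (fun h => ha (h ▸ dvd_zero p))
  obtain ⟨T, t, hT, -, -, e⟩ :=
    exists_period hp.one_lt h0 ((Nat.Prime.coprime_iff_not_dvd hp).2 ha) 0
  have e1 : k * t + l * t + 1 = p ^ T := by rw [e]; ring
  obtain ⟨K, hK, hF⟩ := many (j := 1) (n₀ := t) hp ha (fun i _ => nc_full hp.one_lt e1 i)
  refine power_count hK (fun m => ?_)
  obtain ⟨F, hc, hF'⟩ := hF m
  refine ⟨F, hc, fun n hn => ⟨(hF' n hn).1, fun hd => ?_⟩⟩
  obtain ⟨-, b1, b2⟩ := hF' n hn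
  have b3 : p ∣ l * t + 1 := by
    have h1 : p ∣ k * t + (l * t + 1) := by
      rw [← add_assoc, e1]; exact dvd_pow_self p hT.ne'
    exact (Nat.dvd_add_right (Dvd.dvd.mul_right hk t)).1 h1
  rw [pow_one] at b1
  have b4 : p ∣ l * n + 1 :=
    (Nat.modEq_zero_iff_dvd).1 (((b1.mul_left l).add_right 1).trans ((Nat.modEq_zero_iff_dvd).2 b3))
  exact not_dvd_choose (s := 0) hp one_pos b2 (by simpa using b4.trans hd)

end Pool.Agent.Lib.MP_fced27_nt
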